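import Pool.Agent.H487.GP.Stm

set_option autoImplicit false

/-!
# Project GP (helper487), second part: uniformity in `v ∈ [v0, v1]`

Each statement is the one of `Pool/Agent/H487/GP/Stm.lean` with the quantifier over `v` moved behind the constants (`0 < v0 ≤ v ≤ v1`). The files with the proofs of the
non-uniform versions are on main; the uniform versions are modified copies.
-/

open Finset Complex Filter Topology Metric Set MeasureTheory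

namespace Pool.Agent.H487.GP

open Pool.Agent.Helper242.KK (FT Ph)
open Pool.Agent.H477.Jen
open Pool.Agent.H477.E
open Pool.Agent.H487.GA

noncomputable section

/-- **S_GKBU**: `S_GKB` with a constant which depends only on a bound for `|v|` (copy `Pool/Agent/H874/GP/GKB.lean`: the constant there is `C0 (|v| + 3 v² + 1)`). To be proved from `S_KBH`. -/
def S_GKBU : Prop := ∀ v1 : ℝ, 0 < v1 → ∃ C : ℝ, 0 < C ∧ ∀ v : ℝ, |v| ≤ v1 → ∀ y : ℝ, 0 < y → y ≤ 1 → |v| * y ≤ 1 / 2 → C2c (Gv v y) ∧ ∫ x : ℝ, |Gv v y x| ≤ C * y ∧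
  ∫ x : ℝ, |deriv (deriv (Gv v y)) x| ≤ C / y ∧ ContinuousOn (FF (Gv v y)) (Ioi 0) ∧ ContinuousOn (deriv (FF (Gv v y))) (Ioi 0) ∧
  ∀ ξ : ℝ, 0 < ξ → ‖FF (Gv v y) ξ‖ ≤ C * y ∧ ‖FF (Gv v y) ξ‖ ≤ C / (y * ξ ^ 2) ∧
    ‖deriv (FF (Gv v y)) ξ‖ ≤ C * (y * Real.sqrt y) ∧ ‖deriv (FF (Gv v y)) ξ‖ ≤ C / ξ ^ 2 ∧
    ‖FF (Gv v y) ξ - ((Real.pi * Real.exp (-(y * ξ)) : ℝ) : ℂ) * ((1 - cexp (-(((v * y * ξ : ℝ) : ℂ) * I))) / (I * ξ))‖ ≤ C * y ^ 2 / (1 + ξ ^ 2)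

/-- **S_GADU**: `S_GAD`, uniformly for `v0 ≤ v ≤ v1` (copy `Pool/Agent/H224/GP/GAD.lean`). To be proved from `S_GKBU`, `S_FRU`. -/
def S_GADU : Prop := ∀ v0 v1 : ℝ, 0 < v0 → v0 ≤ v1 → ∀ u : ℝ, ∃ V : ℝ, 0 < V ∧ ∀ η : ℝ, 0 < η → ∃ δ K : ℝ, 0 < δ ∧ 1 ≤ K ∧
  ∀ v : ℝ, v0 ≤ v → v ≤ v1 → ∀ y L : ℝ, 0 < y → y ≤ δ → K ≤ y * L →
  Adm η V L (fun x => u * Gv v y x) ∧ |sg (fun x => u * Gv v y x) - u ^ 2 * vv v| ≤ η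

/-- **S_CDFU**: `S_CDF2`, uniformly for `v0 ≤ v ≤ v1` (copy `Pool/Agent/H600/GP/CDF2.lean`). To be proved from `S_LEV2`, `S_MAINY`, `S_GADU`.

Proof. By contradiction: sequences `T_n → ∞`, `r_n → 0`, `r_n log T_n → ∞`, `v_n ∈ [v0, v1]`; pass to a subsequence with `v_n → v'` (compactness). The characteristic functions of the laws tend to `exp (-vv v' u²/2)` and so do those of `nu v_n`; `S_LEV2` for both sequences gives that both distribution functions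
are uniformly close to that of `nu v'`. -/
def S_CDFU : Prop := ∀ v0 v1 : ℝ, 0 < v0 → v0 ≤ v1 → ∀ ε : ℝ, 0 < ε → ∃ K δ T0 : ℝ, 1 ≤ K ∧ 0 < δ ∧ 1 ≤ T0 ∧ ∀ v : ℝ, v0 ≤ v → v ≤ v1 →
  ∀ T : ℝ, T0 ≤ T → ∀ r : ℝ, 0 < r → K ≤ r * Real.log T → r ≤ δ →
  AEMeasurable (XF (Gv v r) T) (volume.restrict (Set.Icc T (2 * T))) ∧ IsProbabilityMeasure (law T (XF (Gv v r) T)) ∧
  ∀ a : ℝ, |(law T (XF (Gv v r) T)).real (Set.Iic a) - (nu v).real (Set.Iic a)| ≤ ε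

/-- **S_PERSU**: `S_PERS`, uniformly for the variances in `[s0, s1]` (copy `Pool/Agent/H909/GP/Pers.lean`; the density is `≤ 1/√(2π s0)` and the tails are `≤ s1/M²`). -/
def S_PERSU : Prop := ∀ s0 s1 : NNReal, 0 < s0 → s0 ≤ s1 → ∀ ε : ℝ, 0 < ε → ∃ e ε' : ℝ, 0 < e ∧ 0 < ε' ∧ ∀ s : NNReal, s0 ≤ s → s ≤ s1 → ∀ μ : Measure ℝ, IsProbabilityMeasure μ →
  (∀ a : ℝ, |μ.real (Set.Iic a) - (ProbabilityTheory.gaussianReal 0 s).real (Set.Iic a)| ≤ ε') → ∀ a b : ℝ,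
    μ.real (SS (a - e) (b + e)) ≤ (ProbabilityTheory.gaussianReal 0 s).real (SS a b) + ε ∧
    (ProbabilityTheory.gaussianReal 0 s).real (SS a b) - ε ≤ μ.real (SS (a + e) (b - e))

/-- **S_LAWU**: `S_LAW`, uniformly for `v0 ≤ v ≤ v1` (copy `Pool/Agent/H353/GP/Law.lean`). To be proved from `S_CDFU`, `S_PERSU`. -/
def S_LAWU : Prop := ∀ v0 v1 : ℝ, 0 < v0 → v0 ≤ v1 → ∀ ε : ℝ, 0 < ε → ∃ e K δ T0 : ℝ, 0 < e ∧ 1 ≤ K ∧ 0 < δ ∧ ∀ v : ℝ, v0 ≤ v → v ≤ v1 →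
  ∀ T : ℝ, T0 ≤ T → ∀ r : ℝ, 0 < r → K ≤ r * Real.log T → r ≤ δ →
  ∀ a b : ℝ, volume {t : ℝ | t ∈ Icc T (2 * T) ∧ XF (Gv v r) T t ∈ SS (a - e) (b + e)} ≤ ENNReal.ofReal (((nu v).real (SS a b) + ε) * T) ∧
    volume {t : ℝ | t ∈ Icc T (2 * T) ∧ XF (Gv v r) T t ∉ SS (a + e) (b - e)} ≤ ENNReal.ofReal ((1 - (nu v).real (SS a b) + ε) * T)

/-- **S_XXAU**: `S_XXA`, uniformly for `0 < v ≤ v1` (copy `Pool/Agent/H685/GP/XXA.lean`). To be proved from `S_UAP`, `S_L1Y`, `S_DIFK`, `S_KBH`. -/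
def S_XXAU : Prop := ∀ v1 ε : ℝ, 0 < v1 → 0 < ε → ∃ δ K T0 : ℝ, 0 < δ ∧ 1 ≤ K ∧ 10 ≤ T0 ∧ ∀ v : ℝ, 0 < v → v ≤ v1 →
  ∀ T : ℝ, T0 ≤ T → ∀ y : ℝ, 0 < y → y ≤ δ → K ≤ y * Real.log T →
  AEMeasurable (fun t => XX v T y t - XF (Gv v y) T t) (volume.restrict (Icc (T + 3 * Real.log T) (2 * T - 3 * Real.log T - 1))) ∧
  ∫⁻ t in Icc (T + 3 * Real.log T) (2 * T - 3 * Real.log T - 1), ENNReal.ofReal |XX v T y t - XF (Gv v y) T t| ≤ ENNReal.ofReal (ε * T)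

/-- **S_GDPU**: `S_GDP`, uniformly for `0 < v ≤ v1` (copy `Pool/Agent/H903/GP/GDP.lean`; the set `B` may depend on `v`). To be proved from `S_GDX`, `S_LGV`, `S_RE`, `S_CZ`, `S_XXAU` and `Pool.Agent.H487.ED.S_SPC`. -/
def S_GDPU : Prop := ∀ v1 ε : ℝ, 0 < v1 → 0 < ε → ε ≤ 1 → ∃ (k0 : ℕ) (δ T0 : ℝ), 0 < δ ∧ 10 ≤ T0 ∧ ∀ v : ℝ, 0 < v → v ≤ v1 →
  ∀ T : ℝ, T0 ≤ T → ∀ k : ℕ, k0 ≤ k → (k : ℝ) ≤ δ * Real.log T →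
  ∃ W : ℂ, ‖W‖ = 1 ∧ ∃ B : Set ℝ, MeasurableSet B ∧ volume B ≤ ENNReal.ofReal (ε * T) ∧ ∀ t : ℝ, T ≤ t → t ≤ 2 * T → t ∉ B →
    Gd v ε T k W (k / lamT T) (lamT T) t

end

end Pool.Agent.H487.GP
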