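import Pool.Agent.H487.GA.Stm2

set_option autoImplicit false

/-!
# Project GP (helper487): the pair correlation of the zeros of the derivatives of `ξ` at distances `≍ m` mean spacings

Goal (very famous page, Montgomery's pair correlation conjecture): unconditionally, for `m → ∞`, `m = o(log T)`, the zeros of `ξ^{(m)}` have at the distance
`s m + x` mean spacings the pair correlation density `∑_{n ∈ ℤ} (1 + (π s/2)²)^{-n²} e^{2π i n (s m + x)}`.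

Method: a real `x` is a zero of `Ξ^{(k)}` near a typical height iff `arg Ξ(x - ir)` is in a fixed class mod `π` (up to `o(1)`), `r = k/lamT T` (`S_RE`), so for two zeros `x`, `y`,
`∫_x^y Im (Ξ'/Ξ)(s - ir) ds ∈ π ℤ + o(1)`, `Im Ξ'/Ξ = lamT T + UU T`; the increment `XX v T r t = ∫_0^{v r} UU T (t + w - ir) dw` is a linear statistic of the zeros of zeta
(kernel `arctan (x/r) - arctan ((x - v r)/r)`), Gaussian with the variance `vv v = log (1 + v²/4)/2`.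

All statements use the definitions of project GA (`Pool/Agent/H487/GA/Stm.lean`, `Stm2.lean`, on main, with all proofs). Deliver each as `theorem x_proof : S_X` (or with the
listed hypotheses `S_Y → ... → S_X`).
-/

open Finset Complex Filter Topology Metric Set MeasureTheory

namespace Pool.Agent.H487.GP

open Pool.Agent.Helper242.KK (FT Ph)
open Pool.Agent.H477.Jen
open Pool.Agent.H477.E
open Pool.Agent.H487.GA

noncomputable section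

/-- the Poisson kernel with the narrow cut-off -/
def Fh (y x : ℝ) : ℝ := y ^ 2 / (x ^ 2 + y ^ 2) * chi (2 * x)

/-- the kernel of the increments of the argument, `≈ arctan (x/y) - arctan ((x - v y)/y)` -/
def Gv (v y x : ℝ) : ℝ := 1 / y * ∫ w in (0 : ℝ)..(v * y), Fh y (x - w)

/-- the variance of the increments -/
def vv (v : ℝ) : ℝ := Real.log (1 + v ^ 2 / 4) / 2

/-- the increment of the argument of `Ξ` (minus its mean) along `Im z = -y` -/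
def XX (v T y t : ℝ) : ℝ := ∫ w in (0 : ℝ)..(v * y), UU T (((t + w : ℝ) : ℂ) - I * y)

/-- periodic sets: `j - x/π ∈ [a, b]` for an integer `j` -/
def SS (a b : ℝ) : Set ℝ := {x : ℝ | ∃ j : ℤ, a ≤ j - x / Real.pi ∧ j - x / Real.pi ≤ b}

/-- the limit law -/
def nu (v : ℝ) : Measure ℝ := ProbabilityTheory.gaussianReal 0 (vv v).toNNReal

/-! ### the kernel -/

/-- **S_KBH** (analysis). `S_KB` (`GA/Stm2.lean`) for the narrow cut-off. Copy the proof `kb_proof` of `Pool/Agent/H331/GA/KB.lean` (and its helper files), replacing `chi x` by `chi (2x)`. -/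
def S_KBH : Prop := ∃ C : ℝ, 0 < C ∧ ∀ y : ℝ, 0 < y → y ≤ 2 → C2c (Fh y) ∧ (∀ x : ℝ, 1 / 2 ≤ |x| → Fh y x = 0) ∧ ∫ x : ℝ, |Fh y x| ≤ C * y ∧
  ∫ x : ℝ, |deriv (deriv (Fh y)) x| ≤ C / y ∧ ContinuousOn (FF (Fh y)) (Ioi 0) ∧ ContinuousOn (deriv (FF (Fh y))) (Ioi 0) ∧
  ∀ ξ : ℝ, 0 < ξ → ‖FF (Fh y) ξ‖ ≤ C * y ∧ ‖FF (Fh y) ξ‖ ≤ C / (y * ξ ^ 2) ∧
    DifferentiableAt ℝ (FF (Fh y)) ξ ∧ ‖deriv (FF (Fh y)) ξ‖ ≤ C * (y * Real.sqrt y) ∧ ‖deriv (FF (Fh y)) ξ‖ ≤ C / ξ ^ 2 ∧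
    ‖FF (Fh y) ξ - ((Real.pi * y * Real.exp (-(y * ξ)) : ℝ) : ℂ)‖ ≤ C * y ^ 2 / (1 + ξ ^ 2)

/-- **S_DIFK** (analysis). The difference of the two cut-offs is admissible.

Proof. `(Fy y x - Fh y x)/y² = (chi x - chi (2x))/(x² + y²)` is supported in `1/4 ≤ |x| ≤ 1` (`chi x = 1` for `|x| ≤ 1/2`), so it is `C²` with derivatives up to order 2 bounded by an absolute constant `C₁` (uniformly in `y ∈ (0, 2]`);
`‖FF F ξ‖ ≤ min (C₁, C₁/ξ²)`, `deriv (FF F) ξ = -i FF (x F) ξ` has the same bounds; multiply by a small `c`. Copy the proof of `S_HN` (`Pool/Agent/H487/GA/HN.lean` on main, namespace `HNc`; its block `n = 0`-type functions are the same kind) or `H331/GA/KB.lean`. -/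
def S_DIFK : Prop := ∃ c V : ℝ, 0 < c ∧ 0 < V ∧ ∀ y L : ℝ, 0 < y → y ≤ 2 → 1 ≤ L → Adm 1 V L (fun x => c / y ^ 2 * (Fy y x - Fh y x))

/-- **S_GKB** (analysis). Bounds for `Gv`. To be proved from `S_KBH`.

Proof. `Gv v y x = (1/y) ∫_0^{v y} Fh y (x - w) dw` is `C²` (differentiate under the integral, or: `Gv v y x = (1/y) ∫_{x - v y}^{x} Fh y`, so its derivative is `(Fh y x - Fh y (x - v y))/y`), vanishes for `|x| ≥ 1/2 + |v| y`.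
`∫ |Gv| ≤ |v| ∫ |Fh| ≤ |v| C y`, `∫ |Gv''| ≤ |v| ∫ |Fh''| ≤ |v| C/y` (or `Gv'' = (Fh' x - Fh' (x - v y))/y`: write it as an integral of `Fh''`). `FF (Gv) ξ = M(ξ) FF (Fh) ξ`, `M(ξ) = (1/y) ∫_0^{v y} e^{-i w ξ} dw`, so
`|M| ≤ |v|`, `|M'| ≤ v² y/2`, `M(ξ) = (1 - e^{-i v y ξ})/(i y ξ)`. So `‖deriv (FF Gv)‖ ≤ |v| ‖deriv (FF Fh)‖ + (v² y/2) ‖FF Fh‖`; use the bounds of `S_KBH` (`y ≤ 1`; `y·C/(y ξ²) = C/ξ²`, `y · C y ≤ C y^{3/2}`). -/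
def S_GKB : Prop := ∀ v : ℝ, ∃ C : ℝ, 0 < C ∧ ∀ y : ℝ, 0 < y → y ≤ 1 → |v| * y ≤ 1 / 2 → C2c (Gv v y) ∧ ∫ x : ℝ, |Gv v y x| ≤ C * y ∧
  ∫ x : ℝ, |deriv (deriv (Gv v y)) x| ≤ C / y ∧ ContinuousOn (FF (Gv v y)) (Ioi 0) ∧ ContinuousOn (deriv (FF (Gv v y))) (Ioi 0) ∧
  ∀ ξ : ℝ, 0 < ξ → ‖FF (Gv v y) ξ‖ ≤ C * y ∧ ‖FF (Gv v y) ξ‖ ≤ C / (y * ξ ^ 2) ∧
    ‖deriv (FF (Gv v y)) ξ‖ ≤ C * (y * Real.sqrt y) ∧ ‖deriv (FF (Gv v y)) ξ‖ ≤ C / ξ ^ 2 ∧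
    ‖FF (Gv v y) ξ - ((Real.pi * Real.exp (-(y * ξ)) : ℝ) : ℂ) * ((1 - cexp (-(((v * y * ξ : ℝ) : ℂ) * I))) / (I * ξ))‖ ≤ C * y ^ 2 / (1 + ξ ^ 2)

/-- **S_FRU** (analysis). Frullani's integral.

Proof. `G(v) = ∫_0^∞ e^{-2x} (2 - 2 cos (v x))/x dx`, `G'(v) = 2 ∫ e^{-2x} sin (v x) dx = 2v/(4 + v²)`, `G(0) = 0`, so `G(v) = log (1 + v²/4)`. Or Tonelli/Fubini: `(2 - 2 cos (v x))/x = 2 ∫_0^v sin (u x) du`. -/
def S_FRU : Prop := ∀ v : ℝ, IntegrableOn (fun x : ℝ => Real.exp (-(2 * x)) * (2 - 2 * Real.cos (v * x)) / x) (Ioi 0) ∧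
  ∫ x in Ioi (0 : ℝ), Real.exp (-(2 * x)) * (2 - 2 * Real.cos (v * x)) / x = Real.log (1 + v ^ 2 / 4)

/-- **S_GAD** (analysis). `Gv` is admissible, and its variance. To be proved from `S_GKB`, `S_FRU`.

Proof. As `kad_proof` (`Pool/Agent/H178/GA/KAD.lean`, from `S_KB`; copy it). With `F = u Gv`: splitting at `ξ = 1/y`: `∫_0^∞ ξ ‖FF F‖² ≤ C u²`, `∫_0^∞ ‖FF F‖² ≤ C u² y`, `∫_0^∞ 2 ξ ‖FF F‖ ‖(FF F)'‖ ≤ C u² √y`, `∫ |F''| ≤ C |u|/y ≤ η L` as `y L ≥ K`. Variance: with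
`g(ξ) = π e^{-yξ} (1 - e^{-i v y ξ})/(i ξ)`, `|g|² = π² e^{-2yξ} (2 - 2 cos (v y ξ))/ξ²`, `(1/2π²) ∫ ξ |g|² = (1/2) ∫_0^∞ e^{-2x} (2 - 2 cos (v x))/x dx = vv v` (`S_FRU`), `|g| ≤ π |v| y`, and `| ‖FF Gv‖² - |g|² | ≤ C y²/(1+ξ²) (‖FF Gv‖ + |g|) ≤ C y³/(1+ξ²)`, whose integral
against `ξ` is split at `1/y` (or use `‖FF Gv‖, |g| ≤ C min (y, 1/ξ, 1/(yξ²))`): `O(y log (1/y))`-like, tends to 0. -/
def S_GAD : Prop := ∀ v : ℝ, v ≠ 0 → ∀ u : ℝ, ∃ V : ℝ, 0 < V ∧ ∀ η : ℝ, 0 < η → ∃ δ K : ℝ, 0 < δ ∧ 1 ≤ K ∧ ∀ y L : ℝ, 0 < y → y ≤ δ → K ≤ y * L →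
  Adm η V L (fun x => u * Gv v y x) ∧ |sg (fun x => u * Gv v y x) - u ^ 2 * vv v| ≤ η

/-! ### the law -/

/-- **S_LEV2** (probability). Levy's theorem with uniform convergence of the distribution functions.

Proof. Copy `Pool/Agent/H914/GA/LEVS.lean` (the case of `N(0, 1/8)`, pointwise convergence) for `N(0, s)`, then Polya: the limit is continuous and the functions are monotone: choose finitely many points `a_i` with increments of the limit `≤ ε/2` and tails `≤ ε/2`. -/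
def S_LEV2 : Prop := ∀ s : NNReal, s ≠ 0 → ∀ μ : ℕ → Measure ℝ, (∀ n, IsProbabilityMeasure (μ n)) →
  (∀ u : ℝ, Tendsto (fun n => charFun (μ n) u) atTop (𝓝 (cexp (-((s : ℝ) : ℂ) * (u : ℂ) ^ 2 / 2)))) →
  ∀ ε : ℝ, 0 < ε → ∀ᶠ n in atTop, ∀ a : ℝ, |(μ n).real (Set.Iic a) - (ProbabilityTheory.gaussianReal 0 s).real (Set.Iic a)| ≤ ε

/-- the law of a statistic at the heights in `[T, 2T]` -/
def law (T : ℝ) (X : ℝ → ℝ) : Measure ℝ := (ENNReal.ofReal (1 / T) • (volume.restrict (Set.Icc T (2 * T)))).map X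

/-- **S_CDF2** (probability). To be proved from `S_MAINY`, `S_GAD`, `S_LEV2`.

Proof. Copy `cdf_proof` (`Pool/Agent/H358/GA/Cdf.lean`: the same for `Fy`, from `S_MAINY`, `S_KAD`, `S_LEVS`): by contradiction with sequences `T_n → ∞`, `r_n → 0`, `r_n log T_n → ∞`; `XF (u F) = u XF F`; the characteristic functions tend to `exp (-vv v u²/2)`. The map `t ↦ XF (Gv v r) T t` is measurable (there: the same fact for `Fy`). -/
def S_CDF2 : Prop := ∀ v : ℝ, v ≠ 0 → ∀ ε : ℝ, 0 < ε → ∃ K δ T0 : ℝ, 1 ≤ K ∧ 0 < δ ∧ 1 ≤ T0 ∧ ∀ T : ℝ, T0 ≤ T → ∀ r : ℝ, 0 < r → K ≤ r * Real.log T → r ≤ δ →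
  AEMeasurable (XF (Gv v r) T) (volume.restrict (Set.Icc T (2 * T))) ∧ IsProbabilityMeasure (law T (XF (Gv v r) T)) ∧
  ∀ a : ℝ, |(law T (XF (Gv v r) T)).real (Set.Iic a) - (nu v).real (Set.Iic a)| ≤ ε

/-- **S_PERS** (probability). Periodic sets under measures close to a Gaussian one.

Proof. `SS a b = ⋃_j [π (j - b), π (j - a)]`. The Gaussian density is bounded, the tails are small: choose `M` with `ν(|x| > M) ≤ ε/16`, then `μ(|x| > M) ≤ ε/16 + 2 ε'`. If `b - a ≤ 1`: inside `[-M, M]` only `O(M + 1)` indices `j` matter, each interval has `|μ - ν| ≤ 2 ε'` (closed intervals: `ν` has no atoms; take limits in the hypothesis for the left ends),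
and enlarging or shrinking the intervals by `e π` changes `ν` by at most `O((M+1) e)`. If `b - a > 1`: `SS a b = univ`, and `SS (a+e) (b-e)` is everything or the complement of intervals of length `≤ 2 π e` (`SS (a+e) (a+1-e) ⊆ SS (a+e) (b-e)`: reduce to `b = a + 1`). -/
def S_PERS : Prop := ∀ s : NNReal, s ≠ 0 → ∀ ε : ℝ, 0 < ε → ∃ e ε' : ℝ, 0 < e ∧ 0 < ε' ∧ ∀ μ : Measure ℝ, IsProbabilityMeasure μ →
  (∀ a : ℝ, |μ.real (Set.Iic a) - (ProbabilityTheory.gaussianReal 0 s).real (Set.Iic a)| ≤ ε') → ∀ a b : ℝ,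
    μ.real (SS (a - e) (b + e)) ≤ (ProbabilityTheory.gaussianReal 0 s).real (SS a b) + ε ∧
    (ProbabilityTheory.gaussianReal 0 s).real (SS a b) - ε ≤ μ.real (SS (a + e) (b - e))

/-- **S_LAW** (probability). To be proved from `S_CDF2`, `S_PERS`.

Proof. Unfold `law` (`measure_map`, restrict); `SS` is a countable union of closed intervals (measurable); for the second claim pass to the complement. -/
def S_LAW : Prop := ∀ v : ℝ, v ≠ 0 → ∀ ε : ℝ, 0 < ε → ∃ e K δ T0 : ℝ, 0 < e ∧ 1 ≤ K ∧ 0 < δ ∧ ∀ T : ℝ, T0 ≤ T → ∀ r : ℝ, 0 < r → K ≤ r * Real.log T → r ≤ δ →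
  ∀ a b : ℝ, volume {t : ℝ | t ∈ Icc T (2 * T) ∧ XF (Gv v r) T t ∈ SS (a - e) (b + e)} ≤ ENNReal.ofReal (((nu v).real (SS a b) + ε) * T) ∧
    volume {t : ℝ | t ∈ Icc T (2 * T) ∧ XF (Gv v r) T t ∉ SS (a + e) (b - e)} ≤ ENNReal.ofReal ((1 - (nu v).real (SS a b) + ε) * T)

/-- **S_THETA** (analysis). Poisson summation for the wrapped Gaussian law.

Proof. `X ~ N(0, vv v)`, `Z = -X/π ~ N(0, vv v/π²)`, `X ∈ SS a b` iff `Z + j ∈ [a, b]` for an integer `j`; for `b ≤ a + 1` the sets are disjoint up to null sets, so the measure is `∑_j ∫_{a-j}^{b-j} g = ∫_a^b ∑_j g(x - j) dx`, `g` = density of `N(0, vv v/π²)`. Poisson summation for the Gaussian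
(Mathlib: `Real.tsum_exp_neg_mul_int_sq`, `Complex.tsum_exp_neg_quadratic` in `Mathlib/Analysis/SpecialFunctions/Gaussian/PoissonSummation.lean`): `∑_j g(x - j) = ∑_{n ∈ ℤ} e^{-2π² n² (vv v/π²)} e^{2πinx}`, `e^{-2 n² vv v} = (1 + v²/4)^{-n²}`. -/
def S_THETA : Prop := ∀ v : ℝ, v ≠ 0 → ∀ a b : ℝ, a ≤ b → b ≤ a + 1 →
  (nu v).real (SS a b) = ∫ x in a..b, (1 + 2 * ∑' n : ℕ, Real.cos (2 * Real.pi * (n + 1) * x) / (1 + v ^ 2 / 4) ^ ((n + 1) ^ 2))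

/-! ### the increments -/

/-- **S_XXA** (analysis). To be proved from `S_UAP`, `S_L1Y`, `S_DIFK`, `S_KBH`.

Proof. `L = log T`, `t ∈ [T + 3L, 2T - 3L - 1]`, `v y ≤ 1`, so `t + w ∈ [T + 3L, 2T - 3L]` for `0 ≤ w ≤ v y`. `XF (Gv v y) T t = (1/y) ∫_0^{v y} XF (Fh y) T (t + w) dw` (finite sum over the zeros near `t`, Fubini for the integrals: `∫ Gv v y = (1/y) (v y) ∫ Fh y`; only finitely many zeros matter, see `XF_eq` in `H203/ME/APX.lean`).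
So `XX - XF (Gv) = (1/y) ∫_0^{v y} (y UU T (t + w - iy) - XF (Fy y) T (t + w)) dw + (1/y) ∫_0^{v y} XF (Fy y - Fh y) T (t + w) dw`. Tonelli: the `L¹(dt)` norm of the first is `≤ v ε' T` by `S_UAP` (2), of the second `≤ v · (y²/c) C T √(V+1)` by `S_DIFK`, `S_L1Y`.
(`UU T (x - iy)` is integrable in `x` on `[T + 3L, 2T - 3L]` by `S_UAP` (1); measurability as in `Pool/Agent/H790/GA/Uap.lean`, `H969/GA/POI.lean`.) -/
def S_XXA : Prop := ∀ v ε : ℝ, 0 < v → 0 < ε → ∃ δ K T0 : ℝ, 0 < δ ∧ 1 ≤ K ∧ 10 ≤ T0 ∧ ∀ T : ℝ, T0 ≤ T → ∀ y : ℝ, 0 < y → y ≤ δ → K ≤ y * Real.log T →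
  AEMeasurable (fun t => XX v T y t - XF (Gv v y) T t) (volume.restrict (Icc (T + 3 * Real.log T) (2 * T - 3 * Real.log T - 1))) ∧
  ∫⁻ t in Icc (T + 3 * Real.log T) (2 * T - 3 * Real.log T - 1), ENNReal.ofReal |XX v T y t - XF (Gv v y) T t| ≤ ENNReal.ofReal (ε * T)

/-! ### the local theorem -/

/-- `w_k`: `z + (-1)^k conj z = 0` iff `Re (w_k z) = 0` -/
def wk (k : ℕ) : ℂ := if Even k then 1 else I

/-- **S_RE** (analysis). The real zeros of `f^{(k)}` near a good point: `arg f(x - ir)` is in a fixed class mod `π`. To be proved from `S_PREC`.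

Proof. `r = k/lam`, `u = -(I r)`, `k0 ≥ 160`, so `|x - t| ≤ 20/lam ≤ r/8`. By `half_decomp` (`Pool/Agent/H477/Jen/Four.lean`) `f^{(k)}(x) = 0` iff `P + (-1)^k conj P = 0`, `P = half f u k x`, iff `Re (w_k P) = 0` (as in `gapl_proof`, `Pool/Agent/H364/GA/Gapl.lean`, lines 300-350). By `S_PREC`
`‖P - AA k f(x + u)‖ ≤ ε ‖AA k‖ ‖f(x + u)‖`. -/
def S_RE : Prop := ∀ J ε : ℝ, 0 < J → 0 < ε → ∃ η : ℝ, 0 < η ∧ η ≤ 1 ∧ ∃ k0 : ℕ, ∀ f : ℂ → ℂ, Differentiable ℂ f →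
  (∀ z, f ((starRingEnd ℂ) z) = (starRingEnd ℂ) (f z)) →
  ∀ k : ℕ, k0 ≤ k → ∀ lam t : ℝ, 0 < lam → k / lam ≤ 1 / 100 → LGd f k lam t η →
  (∀ z : ℂ, ‖z - ((t : ℂ) - I * ((k / lam : ℝ) : ℂ))‖ ≤ 2 / 5 * (k / lam) → f z ≠ 0 ∧ ‖deriv f z / f z - I * (lam : ℂ)‖ ≤ J * (lam / k)) →
  AA k ≠ 0 ∧ ∀ x : ℝ, |x - t| ≤ 20 / lam → iteratedDeriv k f x = 0 →
    |(wk k * AA k * f (x - I * ((k / lam : ℝ) : ℂ))).re| ≤ ε * (‖AA k‖ * ‖f (x - I * ((k / lam : ℝ) : ℂ))‖)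

/-- **S_ELT** (analysis). Elementary.

Proof. `A = ± i ‖A‖ e^{ia}` with `|sin a| ≤ ε`, `|a| ≤ π/2`, so `|a| ≤ (π/2) ε`; same for `B`; so `e^{i Im Ψ} = (B/‖B‖)/(A/‖A‖) = ± e^{i(b - a)}`. -/
def S_ELT : Prop := ∀ (ε : ℝ) (A B P : ℂ), 0 ≤ ε → ε ≤ 1 / 10 → A ≠ 0 → B = A * cexp P → |A.re| ≤ ε * ‖A‖ → |B.re| ≤ ε * ‖B‖ →
  ∃ j : ℤ, |P.im - Real.pi * j| ≤ 4 * ε

/-- the good heights for pairs -/
structure Gd (v ε : ℝ) (T : ℝ) (k : ℕ) (W : ℂ) (r lam t : ℝ) : Prop where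
  free : ∀ s : ℝ, t - r ≤ s → s ≤ t + v * r + r → FT Ph ((s : ℂ) - I * r) ≠ 0
  log : ∀ x : ℝ, (|x - t| ≤ 15 / lam ∨ |x - (t + v * r)| ≤ 15 / lam) → ‖deriv (FT Ph) ((x : ℂ) - I * r) / FT Ph ((x : ℂ) - I * r) - I * (lam : ℂ)‖ ≤ ε * lam
  zero : ∀ x : ℝ, (|x - t| ≤ 15 / lam ∨ |x - (t + v * r)| ≤ 15 / lam) → iteratedDeriv k (FT Ph) x = 0 →
    |(W * FT Ph ((x : ℂ) - I * r)).re| ≤ ε * ‖FT Ph ((x : ℂ) - I * r)‖
  ex : ∀ p : ℝ, |p - (t + v * r)| ≤ 10 / lam → ∃ y : ℝ, p - (1 + ε) * (Real.pi / lam) ≤ y ∧ y ≤ p ∧ iteratedDeriv k (FT Ph) y = 0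
  app : |XX v T r t - XF (Gv v r) T t| ≤ ε

/-- **S_GDP** (number-theory). Almost all heights are good. To be proved from `S_GDX`, `S_LGV`, `S_RE`, `S_CZ`, `S_XXA` and `Pool.Agent.H487.ED.S_SPC`.

Proof. `r = k/lamT T`, `W = wk k * AA k / ‖AA k‖`. Model: `good`, `good2` in `Pool/Agent/H487/GA/Fin2.lean`, `Fin5.lean` (they combine `S_GDX`, `S_LGV`, `S_GAPL`, `S_SPC`: parameters, `lam' = lamT T'` versus `lamT T`, the lemmas `lamT_two`, `lamT_log`, `move`, `move2`; copy them). `B` = union of: the exceptional sets `B₁` of `S_GDX`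
(with `ε/16`) and `B₂` of `S_LGV`, and their translates by `-v r` (so `t + v r ∉ B₁ ∪ B₂`); the sets of `S_CZ` and their translates by `-2 i r`, `0 ≤ i ≤ v/2 + 1` (the cone below `t'` contains the points `s - ir`, `|s - t'| ≤ 2r`: this gives `free`; `1/(r log T) ≤ 1/k` is small for `k ≥ k0`);
the set where `|XX - XF| > ε` (Markov with `S_XXA` and `ε²/16`; take a measurable superset, `toMeasurable`); and the ends `[T, T + 3 log T + 1]`, `[2T - 3 log T - v r - 2, 2T]`. At `t' = t` or `t + v r`: `log`: `S_GDX` gives `J/r = (J/k) lam`, `k ≥ J/ε`, in the ball of radius `r/2`, and `15/lam ≤ r/4` for `k ≥ 60`.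
`zero`: `S_RE` with `J + 1`, `ε/8` at `lam' = lamT T'`, `r' = k/lam'`, and then move from `x - ir'` to `x - ir`: `f(x - ir) = f(x - ir') exp(i ∫_{r}^{r'} (f'/f)(x - iσ) dσ)`-type, `f'/f = i lam + O(J/r)`, so up to a positive real factor the change is `exp(O((J/r)|r - r'|))`, `|r - r'| ≤ r (7/20)/lamT T` (as in `good2`),
so `|Re (W f(x - ir))| ≤ (ε/8 + small) |f(x - ir)|` for large `T` and `k`. `ex`: `S_SPC` (1) at `lam' ≥ lamT T` (`π/lam' ≤ π/lamT T`), as in `good2`. -/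
def S_GDP : Prop := ∀ v ε : ℝ, 0 < v → 0 < ε → ε ≤ 1 → ∃ (k0 : ℕ) (δ T0 : ℝ), 0 < δ ∧ 10 ≤ T0 ∧ ∀ T : ℝ, T0 ≤ T → ∀ k : ℕ, k0 ≤ k → (k : ℝ) ≤ δ * Real.log T →
  ∃ W : ℂ, ‖W‖ = 1 ∧ ∃ B : Set ℝ, MeasurableSet B ∧ volume B ≤ ENNReal.ofReal (ε * T) ∧ ∀ t : ℝ, T ≤ t → t ≤ 2 * T → t ∉ B →
    Gd v ε T k W (k / lamT T) (lamT T) t

/-- **S_LOCP** (analysis). The positions of the zeros near `t + v r` relative to a zero near `t`. To be proved from `S_ELT`.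

Proof. (1) `f = FT Ph`, `A = W f(x - ir)`, `B = W f(y - ir)`, `B = A exp P`, `P = ∫_x^y (f'/f)(s - ir) ds` (`free`; `15/lam ≤ r`; both sides have the same logarithmic derivative), so by `zero` and `S_ELT` `|Im P - π j| ≤ 4 ε`. `Im (f'/f)(s - ir) = lam + UU T (s - ir)` (as `lam = lamT T`), so
`Im P = lam (y - x) + ∫_x^y UU`, `∫_x^y UU = XX v T r t + ∫_x^t UU + ∫_{t + v r}^y UU`, the last two are `≤ (15/lam)(ε lam) = 15 ε` each by `log`. So `|lam (y - x) + XX - π j| ≤ 34 ε`; divide by `π`: `≤ 12 ε`.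
(2) Let `p' = x + (j0 - XX/π) (π/lam) + 14 ε (π/lam)`; `|p' - (t + v r)| ≤ 8/lam + 14 ε π/lam ≤ 10/lam`; `ex` gives a zero `y ∈ [p' - (1+ε) π/lam, p']`, near `t + v r` (`(1+ε)π + 10 ≤ 15`), by (1) `(y - x) lam/π` is within `12 ε` of `j - XX/π`; so `j - j0 ≤ 26 ε < 1` and `j - j0 ≥ 14 ε - 1 - ε - 12 ε > -1`, so `j = j0`. -/
def S_LOCP : Prop := ∀ (v ε T : ℝ) (k : ℕ) (W : ℂ) (r lam t x : ℝ), 0 < v → 0 < ε → ε ≤ 1 / 100 → ‖W‖ = 1 → 0 < r → 0 < lam → lam = lamT T → 15 / lam ≤ r →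
  Gd v ε T k W r lam t → |x - t| ≤ 15 / lam → iteratedDeriv k (FT Ph) x = 0 →
  (∀ y : ℝ, |y - (t + v * r)| ≤ 15 / lam → iteratedDeriv k (FT Ph) y = 0 → ∃ j : ℤ, |(y - x) * lam / Real.pi - (j - XX v T r t / Real.pi)| ≤ 12 * ε) ∧
  (∀ j0 : ℤ, |x + (j0 - XX v T r t / Real.pi) * (Real.pi / lam) - (t + v * r)| ≤ 8 / lam →
    ∃ y : ℝ, |y - (t + v * r)| ≤ 15 / lam ∧ iteratedDeriv k (FT Ph) y = 0 ∧ |(y - x) * lam / Real.pi - (j0 - XX v T r t / Real.pi)| ≤ 12 * ε)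

end

end Pool.Agent.H487.GP
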