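import Pool.Agent.H487.GA.Fin4
import Pool.Agent.H487.GP.Stm

set_option autoImplicit false

/-!
Project GP: the final counting.
-/

open Finset Complex Filter Topology Metric Set MeasureTheory

namespace Pool.Agent.H487.GP

open Pool.Agent.Helper242.KK (FT Ph)
open Pool.Agent.H477.Jen
open Pool.Agent.H477.E
open Pool.Agent.H487.ED (Ev)
open Pool.Agent.H487.GA

/-- there is a real zero `y` with `(y - w) log w/(2π) - v k/π` in `[a, b]` -/
def PR (v a b : ℝ) (k : ℕ) (w : ℂ) : Prop := w.im = 0 ∧ ∃ y : ℝ, iteratedDeriv k (FT Ph) y = 0 ∧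
  a ≤ (y - w.re) * Real.log w.re / (2 * Real.pi) - v * k / Real.pi ∧ (y - w.re) * Real.log w.re / (2 * Real.pi) - v * k / Real.pi ≤ b

/-- conversion of the normalisations -/
theorem conv {x y L lam v r κ d : ℝ} (hv : 0 < v) (hr : 0 < r) (hlam : 0 < lam) (h1 : 0 ≤ L / 2 - lam) (h2 : L / 2 - lam ≤ 3 / 2)
    (hy : |y - x - v * r| ≤ 30 / lam) (hd : v * r + 30 / lam ≤ d) :
    |((y - x) * L / (2 * Real.pi) - κ) - ((y - x) * lam / Real.pi - κ)| ≤ d := by
  have hpi := Real.pi_gt_three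
  have e : ((y - x) * L / (2 * Real.pi) - κ) - ((y - x) * lam / Real.pi - κ) = (y - x) * ((L / 2 - lam) / Real.pi) := by
    field_simp
    ring
  have h3 : |y - x| ≤ d := by
    have : |y - x| ≤ |y - x - v * r| + |v * r| := by
      have := abs_add_le (y - x - v * r) (v * r)
      rwa [sub_add_cancel] at this
    rw [abs_of_pos (mul_pos hv hr)] at this
    linarith
  have h4 : 0 ≤ (L / 2 - lam) / Real.pi := div_nonneg h1 (by linarith)
  have h5 : (L / 2 - lam) / Real.pi ≤ 1 := by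
    rw [div_le_one (by linarith)]
    linarith
  rw [e, abs_mul, abs_of_nonneg h4]
  have h6 : 0 ≤ |y - x| := abs_nonneg _
  calc |y - x| * ((L / 2 - lam) / Real.pi) ≤ |y - x| * 1 := mul_le_mul_of_nonneg_left h5 h6
    _ ≤ d := by linarith

/-- the position of the second zero -/
theorem near {x y L lam v r a b κ : ℝ} (hv : 0 < v) (hr : 0 < r) (hlam : 0 < lam) (h1 : 0 ≤ L / 2 - lam) (h2 : L / 2 - lam ≤ 3 / 2)
    (hvr : v * r ≤ 1 / 2) (ha : -1 ≤ a) (hb : b ≤ 1) (hκ : κ * Real.pi = v * r * lam)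
    (h3 : a ≤ (y - x) * L / (2 * Real.pi) - κ) (h4 : (y - x) * L / (2 * Real.pi) - κ ≤ b) : |y - x - v * r| ≤ 5 / lam := by
  have hpi := Real.pi_pos
  have hpi4 := Real.pi_lt_d2
  have hL : 0 < L := by linarith
  have h5 : (y - x) * L / (2 * Real.pi) ≤ κ + 1 := by linarith
  have h6 : κ - 1 ≤ (y - x) * L / (2 * Real.pi) := by linarith
  rw [div_le_iff₀ (by positivity)] at h5
  rw [le_div_iff₀ (by positivity)] at h6
  have h7 : (y - x) * L ≤ 2 * (v * r * lam) + 2 * Real.pi := by linarith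
  have h8 : 2 * (v * r * lam) - 2 * Real.pi ≤ (y - x) * L := by linarith
  have hvr0 : 0 < v * r := mul_pos hv hr
  rw [abs_le]
  have e1 : (5:ℝ) / lam * L ≥ 10 := by
    rw [ge_iff_le, div_mul_eq_mul_div, le_div_iff₀ hlam]
    linarith
  have h9 : v * r * (L / 2 - lam) ≤ 1 / 2 * (3 / 2) := mul_le_mul hvr h2 h1 (by norm_num)
  have h10 : 0 ≤ v * r * (L / 2 - lam) := mul_nonneg hvr0.le h1
  constructor
  · have : (-(5 / lam)) * L ≤ (y - x - v * r) * L := by linarith
    exact le_of_mul_le_mul_right this hL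
  · have : (y - x - v * r) * L ≤ 5 / lam * L := by linarith
    exact le_of_mul_le_mul_right this hL

theorem finp_proof (hGAPL : S_GAPL) (hLGV : S_LGV) (hGDX : S_GDX) (hSPC : Pool.Agent.H487.ED.S_SPC) (hDYA : Pool.Agent.H487.ED.S_DYA)
    (hLAW : S_LAW) (hGDP : S_GDP) (hLOCP : S_LOCP) {v a b ε : ℝ} (hv : 0 < v) (ha : -1 ≤ a) (hab : a ≤ b) (hb : b ≤ 1) (hε : 0 < ε) :
    ∃ (k0 : ℕ) (δ T0 : ℝ), 0 < δ ∧ ∀ T : ℝ, T0 ≤ T → ∀ k : ℕ, k0 ≤ k → (k : ℝ) ≤ δ * Real.log T →
    |(cnt k (PR v a b k) (2 * T) - cnt k (PR v a b k) T) -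
      (nu v).real (SS (a + v * k / Real.pi) (b + v * k / Real.pi)) * (cnt k (fun _ => True) (2 * T) - cnt k (fun _ => True) T)| ≤
      ε * (cnt k (fun _ => True) (2 * T) - cnt k (fun _ => True) T) := by
  obtain ⟨e, he, he1, heε⟩ : ∃ e : ℝ, 0 < e ∧ e ≤ 1 / 100 ∧ 20 * e ≤ ε := by
    refine ⟨min (ε / 20) (1 / 100), by positivity, min_le_right _ _, ?_⟩
    have := min_le_left (ε / 20) (1 / 100)
    linarith
  obtain ⟨k1, δ1, T1, hδ1, hT1, hgood⟩ := good hGAPL hLGV hGDX hSPC he (by linarith)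
  obtain ⟨e1, K2, δ2, T2, he1p, hK2, hδ2, hlaw⟩ := hLAW v hv.ne' e he
  obtain ⟨g, hg0, hg1, hg2, hg3⟩ : ∃ g : ℝ, 0 < g ∧ g ≤ 1 / 100 ∧ 40 * g ≤ e1 ∧ g ≤ e := by
    refine ⟨min (min (e1 / 40) (1 / 100)) e, by positivity, (min_le_left _ _).trans (min_le_right _ _), ?_, min_le_right _ _⟩
    have := (min_le_left (min (e1 / 40) (1 / 100)) e).trans (min_le_left _ _)
    linarith
  obtain ⟨k3, δ3, T3, hδ3, hT3, hgdp⟩ := hGDP v g hv hg0 (by linarith)
  obtain ⟨c, C, T4, hc, hdya⟩ := hDYA e he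
  obtain ⟨k4, hk4⟩ : ∃ k4 : ℕ, ∀ k : ℕ, k4 ≤ k → C * Real.exp (-c * k) ≤ e := by
    have h1 : Tendsto (fun k : ℕ => Real.exp (-c * k)) atTop (𝓝 0) := by
      apply Real.tendsto_exp_atBot.comp
      have h2 : Tendsto (fun k : ℕ => -(c * (k:ℝ))) atTop atBot :=
        tendsto_neg_atTop_atBot.comp (Tendsto.const_mul_atTop hc tendsto_natCast_atTop_atTop)
      exact h2.congr fun k => by ring
    have h2 : Tendsto (fun k : ℕ => C * Real.exp (-c * k)) atTop (𝓝 (C * 0)) := h1.const_mul C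
    rw [mul_zero] at h2
    exact eventually_atTop.1 (h2.eventually_le_const he)
  obtain ⟨k5, hk5⟩ := exists_nat_ge (max K2 (max 60 (240 / e1)))
  obtain ⟨δ, hδ, d1, d2, d3, d4, d5⟩ : ∃ δ : ℝ, 0 < δ ∧ δ ≤ δ1 ∧ 4 * δ ≤ δ2 ∧ δ ≤ δ3 ∧ 400 * δ ≤ 1 ∧ 4 * (v * δ) ≤ min (1 / 2) (e1 / 8) := by
    refine ⟨min (min δ1 (δ2 / 4)) (min (min δ3 (1 / 400)) (min (1 / 2) (e1 / 8) / (4 * v))), by positivity, ?_, ?_, ?_, ?_, ?_⟩
    · exact (min_le_left _ _).trans (min_le_left _ _)
    · have := (min_le_left (min δ1 (δ2 / 4)) (min (min δ3 (1 / 400)) (min (1 / 2) (e1 / 8) / (4 * v)))).trans (min_le_right _ _); linarith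
    · exact (min_le_right _ _).trans ((min_le_left _ _).trans (min_le_left _ _))
    · have := (min_le_right (min δ1 (δ2 / 4)) (min (min δ3 (1 / 400)) (min (1 / 2) (e1 / 8) / (4 * v)))).trans ((min_le_left _ _).trans (min_le_right _ _)); linarith
    · have := (min_le_right (min δ1 (δ2 / 4)) (min (min δ3 (1 / 400)) (min (1 / 2) (e1 / 8) / (4 * v)))).trans (min_le_right _ _)
      rw [le_div_iff₀ (by positivity)] at this
      linarith
  obtain ⟨T5, hT5⟩ : ∃ T5 : ℝ, ∀ T : ℝ, T5 ≤ T → 100 + 6 / e + 480 / e1 ≤ Real.log T :=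
    eventually_atTop.1 (Real.tendsto_log_atTop.eventually_ge_atTop _)
  refine ⟨max (max (max k1 k3) k4) (max k5 1), δ, max (max (max T1 T2) (max T3 T4)) (max T5 (10 + 2 / e)), hδ, ?_⟩
  intro T hT k hk hkδ
  simp only [max_le_iff] at hT hk
  obtain ⟨⟨⟨hT1', hT2'⟩, hT3', hT4'⟩, hT5', hT10⟩ := hT
  obtain ⟨⟨⟨hk1, hk3⟩, hk4'⟩, hk5', hk1'⟩ := hk
  have h2e : 0 < 2 / e := by positivity
  have hT0 : 0 < T := by linarith
  have heT : 2 ≤ e * T := by
    have h1 : 2 / e ≤ T := by linarith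
    rw [div_le_iff₀ he] at h1
    linarith
  have hL := hT5 T hT5'
  have h6e : 0 < 6 / e := by positivity
  have h480e : 0 < 480 / e1 := by positivity
  have hkR : (1:ℝ) ≤ k := by exact_mod_cast hk1'
  have hKk : max K2 (max 60 (240 / e1)) ≤ k := hk5.trans (by exact_mod_cast hk5')
  have hk60 : (60:ℝ) ≤ k := ((le_max_left _ _).trans (le_max_right _ _)).trans hKk
  obtain ⟨l1, l2⟩ := lamT_log hT0
  have hlam : 0 < lamT T := by linarith
  have hpi := Real.pi_pos
  have hpi3 := Real.pi_gt_three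
  have hpi4 := Real.pi_lt_four
  obtain ⟨r, hr⟩ : ∃ r : ℝ, r = k / lamT T := ⟨_, rfl⟩
  have hr0 : 0 < r := by rw [hr]; positivity
  have hlam4 : Real.log T / 4 ≤ lamT T := by linarith
  have hr4 : r ≤ 4 * δ := by
    rw [hr, div_le_iff₀ hlam]
    linarith [mul_le_mul_of_nonneg_left hlam4 hδ.le]
  have hvr : v * r ≤ min (1 / 2) (e1 / 8) := by
    have := mul_le_mul_of_nonneg_left hr4 hv.le
    linarith
  have hvr1 : v * r ≤ 1 / 2 := hvr.trans (min_le_left _ _)
  have hvr2 : v * r ≤ e1 / 8 := hvr.trans (min_le_right _ _)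
  have hrL : K2 ≤ r * Real.log T := by
    have : (k:ℝ) * 1 ≤ r * Real.log T := by
      rw [hr, div_mul_eq_mul_div, le_div_iff₀ hlam]
      linarith [mul_le_mul_of_nonneg_left (show lamT T ≤ Real.log T by linarith) (show (0:ℝ) ≤ k by linarith)]
    linarith [(le_max_left K2 (max 60 (240 / e1))).trans hKk]
  have h15r : 15 / lamT T ≤ r := by
    rw [hr]
    exact div_le_div_of_nonneg_right (by linarith) hlam.le
  have h30 : v * r + 30 / lamT T ≤ e1 / 4 := by
    have h1 : 30 / lamT T ≤ e1 / 8 := by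
      rw [div_le_div_iff₀ hlam (by norm_num)]
      have h2 : 240 ≤ e1 * lamT T := by
        have h3 : 480 / e1 / 2 ≤ lamT T := by linarith
        rw [div_div, div_le_iff₀ (by positivity)] at h3
        linarith
      linarith
    linarith
  obtain ⟨B0, hB0, hB0v, hg⟩ := hgood T hT1' k hk1 (hkδ.trans (mul_le_mul_of_nonneg_right d1 (by linarith)))
  rw [← hr] at hg
  obtain ⟨W, hW, B3, hB3, hB3v, hG⟩ := hgdp T hT3' k hk3 (hkδ.trans (mul_le_mul_of_nonneg_right d3 (by linarith)))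
  rw [← hr] at hG
  obtain ⟨κ, hκ⟩ : ∃ κ : ℝ, κ = v * k / Real.pi := ⟨_, rfl⟩
  have hκ2 : κ * Real.pi = v * r * lamT T := by
    rw [hκ, hr]
    field_simp
  obtain ⟨hv1, hv2⟩ := hlaw T hT2' r hr0 hrL (by linarith) (a + κ) (b + κ)
  have h400 : 400 * (k:ℝ) ≤ Real.log T := by
    linarith [mul_le_mul_of_nonneg_right d4 (show 0 ≤ Real.log T by linarith)]
  have hdy := hdya T hT4' k h400
  obtain ⟨S1, hS1⟩ : ∃ S1 : Set ℝ, S1 = {t : ℝ | t ∈ Icc T (2 * T) ∧ XF (Gv v r) T t ∈ SS (a + κ - e1) (b + κ + e1)} := ⟨_, rfl⟩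
  obtain ⟨S2, hS2⟩ : ∃ S2 : Set ℝ, S2 = {t : ℝ | t ∈ Icc T (2 * T) ∧ XF (Gv v r) T t ∉ SS (a + κ + e1) (b + κ - e1)} := ⟨_, rfl⟩
  rw [← hS1] at hv1
  rw [← hS2] at hv2
  rw [← hκ]
  haveI : IsProbabilityMeasure (nu v) := by unfold nu; infer_instance
  obtain ⟨p, hp⟩ : ∃ p : ℝ, p = (nu v).real (SS (a + κ) (b + κ)) := ⟨_, rfl⟩
  have hp0 : 0 ≤ p := by rw [hp]; exact measureReal_nonneg
  have hp1 : p ≤ 1 := by rw [hp]; exact measureReal_le_one
  rw [← hp] at hv1 hv2 ⊢
  -- spacings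
  have hlog2 : Real.log (2 * T) ≤ Real.log T + 1 := by
    rw [Real.log_mul (by norm_num) hT0.ne']
    have := Real.log_two_lt_d9
    linarith
  have hlog2' : Real.log T ≤ Real.log (2 * T) := Real.log_le_log hT0 (by linarith)
  have hl2 : 0 < Real.log (2 * T) := by linarith
  obtain ⟨s, hs⟩ : ∃ s : ℝ, s = (1 - e) * (2 * Real.pi / Real.log (2 * T)) := ⟨_, rfl⟩
  obtain ⟨s2, hs2⟩ : ∃ s2 : ℝ, s2 = (1 + e) * (Real.pi / lamT T) := ⟨_, rfl⟩
  have hs0 : 0 < s := by
    rw [hs]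
    have : 0 < 1 - e := by linarith
    positivity
  have hs1 : s ≤ 1 := by
    rw [hs, mul_div_assoc', div_le_iff₀ hl2]
    have h1 : (1 - e) * (2 * Real.pi) ≤ 1 * (2 * Real.pi) := mul_le_mul_of_nonneg_right (by linarith) (by linarith)
    linarith
  have hs20 : 0 < s2 := by rw [hs2]; positivity
  have hs21 : s2 ≤ 1 / 2 := by
    rw [hs2, mul_div_assoc', div_le_iff₀ hlam]
    have h1 : (1 + e) * Real.pi ≤ 2 * 4 := mul_le_mul (by linarith) hpi4.le hpi.le (by norm_num)
    linarith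
  have hratio : s2 ≤ s * (1 + 4 * e) := by
    rw [hs2, hs]
    have h1 : Real.pi / lamT T ≤ (1 + e) * (2 * Real.pi / Real.log (2 * T)) := by
      rw [mul_div_assoc', div_le_div_iff₀ hlam hl2]
      have h2 : Real.log (2 * T) ≤ (1 + e) * (2 * lamT T) := by
        have h3 : 6 ≤ e * Real.log T := by
          have h4 : 6 / e ≤ Real.log T := by linarith
          rw [div_le_iff₀ he] at h4
          linarith
        linarith [mul_le_mul_of_nonneg_left l1 he.le]
      linarith [mul_le_mul_of_nonneg_left h2 hpi.le]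
    have h2 : (1 + e) * (1 + e) ≤ (1 - e) * (1 + 4 * e) := by nlinarith only [he, he1]
    have h3 : 0 < 2 * Real.pi / Real.log (2 * T) := by positivity
    calc (1 + e) * (Real.pi / lamT T) ≤ (1 + e) * ((1 + e) * (2 * Real.pi / Real.log (2 * T))) :=
          mul_le_mul_of_nonneg_left h1 (by linarith)
      _ = ((1 + e) * (1 + e)) * (2 * Real.pi / Real.log (2 * T)) := by ring
      _ ≤ ((1 - e) * (1 + 4 * e)) * (2 * Real.pi / Real.log (2 * T)) := mul_le_mul_of_nonneg_right h2 h3.le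
      _ = _ := by ring
  -- zeros
  have hnext : ∀ w ∈ ZD k (fun w => Ev e k w ∧ True) T, ∃ b : ℝ, w.im = 0 ∧ T < w.re ∧ w.re ≤ 2 * T ∧ iteratedDeriv k (FT Ph) w.re = 0 ∧
      w.re < b ∧ iteratedDeriv k (FT Ph) b = 0 ∧ (∀ z : ℂ, iteratedDeriv k (FT Ph) z = 0 → w.re < z.re → b ≤ z.re) ∧
      s ≤ b - w.re ∧ b - w.re ≤ 7 / lamT T := by
    intro w hw
    obtain ⟨h1, h2, h3, h4, _⟩ := (mem_ZD hT0.le).1 hw
    obtain ⟨b, h5, h6, h7, h9, h10⟩ := Ev_next h4 (by linarith) h1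
    have hlw : 0 < Real.log w.re := Real.log_pos (by linarith)
    refine ⟨b, h4.1, h2, h3, by rw [real_eq h4.1]; exact h1, h5, h6, h7, ?_, ?_⟩
    · refine le_trans ?_ h9
      rw [hs]
      apply mul_le_mul_of_nonneg_left _ (by linarith)
      exact div_le_div_of_nonneg_left (by positivity) hlw (Real.log_le_log (by linarith) h3)
    · refine h10.trans ?_
      have h11 : Real.log T ≤ Real.log w.re := Real.log_le_log hT0 h2.le
      rw [mul_div_assoc', div_le_div_iff₀ hlw hlam]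
      have h12 : (1 + e) * (2 * Real.pi) ≤ 14 := by
        have := Real.pi_lt_d2
        nlinarith only [he1, this, hpi]
      linarith [mul_le_mul_of_nonneg_right h12 hlam.le]
  have hsep : ∀ P : ℂ → Prop, ∀ x ∈ reZ k (fun w => Ev e k w ∧ P w) T, ∀ y ∈ reZ k (fun w => Ev e k w ∧ P w) T, x < y → x + s ≤ y := by
    intro P x hx y hy hxy
    unfold reZ at hx hy
    rw [Finset.mem_image] at hx hy
    obtain ⟨w, hw, rfl⟩ := hx
    obtain ⟨z, hz, rfl⟩ := hy
    obtain ⟨w1, w2, w3, w4, _⟩ := (mem_ZD hT0.le).1 hw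
    obtain ⟨z1, z2, z3, z4, _⟩ := (mem_ZD hT0.le).1 hz
    obtain ⟨b, _, _, _, _, _, _, b7, b8, _⟩ := hnext w ((mem_ZD hT0.le).2 ⟨w1, w2, w3, w4, trivial⟩)
    have := b7 z z1 hxy
    linarith
  -- the main estimate at an interval
  have hspi : s ≤ 16 / 5 / lamT T := by
    rw [hs, mul_div_assoc', div_le_div_iff₀ hl2 hlam]
    have h1 : (1 - e) * (2 * Real.pi) ≤ 32 / 5 := by
      have := Real.pi_lt_d2
      nlinarith only [he, this, hpi]
    have h2 : 2 * lamT T ≤ Real.log (2 * T) := by linarith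
    linarith [mul_le_mul_of_nonneg_right h1 hlam.le]
  have hmain : ∀ w ∈ ZD k (fun w => Ev e k w ∧ True) T, ∀ t : ℝ, w.re ≤ t → t < w.re + s → t ≤ 2 * T → t ∈ B3 ∨
      ((PR v a b k w → t ∈ S1) ∧ (¬ PR v a b k w → t ∈ S2)) := by
    intro w hw t ht1 ht2 ht3
    by_cases htB : t ∈ B3
    · exact Or.inl htB
    right
    obtain ⟨_, b1, b2, b3, b4, _, _, _, _, _⟩ := hnext w hw
    have hGd := hG t (by linarith) ht3 htB
    have h165 : 16 / 5 / lamT T ≤ 15 / lamT T := div_le_div_of_nonneg_right (by norm_num) hlam.le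
    have hxt : |w.re - t| ≤ 16 / 5 / lamT T := by
      rw [abs_le]
      have : 0 < 16 / 5 / lamT T := by positivity
      constructor <;> linarith
    obtain ⟨P1, P2⟩ := hLOCP v g T k W r (lamT T) t w.re hv hg0 hg1 hW hr0 hlam rfl h15r hGd (hxt.trans h165) b4
    have happ := hGd.app
    obtain ⟨X, hX⟩ : ∃ X : ℝ, X = XX v T r t := ⟨_, rfl⟩
    obtain ⟨F, hF⟩ : ∃ F : ℝ, F = XF (Gv v r) T t := ⟨_, rfl⟩
    rw [← hX] at P1 P2 happ
    rw [← hF] at happ
    have hXF : |X / Real.pi - F / Real.pi| ≤ g := by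
      rw [← sub_div, abs_div, abs_of_pos hpi, div_le_iff₀ hpi]
      linarith [mul_le_mul_of_nonneg_left hpi3.le hg0.le]
    obtain ⟨L, hLd⟩ : ∃ L : ℝ, L = Real.log w.re := ⟨_, rfl⟩
    have hL1 : 0 ≤ L / 2 - lamT T := by
      have : Real.log T ≤ Real.log w.re := Real.log_le_log hT0 b2.le
      rw [hLd]; linarith
    have hL2 : L / 2 - lamT T ≤ 3 / 2 := by
      have : Real.log w.re ≤ Real.log (2 * T) := Real.log_le_log (by linarith) b3
      rw [hLd]; linarith
    constructor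
    · rintro ⟨_, y, hy0, hy1, hy2⟩
      rw [← hκ, ← hLd] at hy1 hy2
      have hn := near hv hr0 hlam hL1 hL2 hvr1 ha hb hκ2 hy1 hy2
      have hyt : |y - (t + v * r)| ≤ 15 / lamT T := by
        have e1 : y - (t + v * r) = (y - w.re - v * r) + (w.re - t) := by ring
        rw [e1]
        refine (abs_add_le _ _).trans ((add_le_add hn hxt).trans ?_)
        rw [← add_div]
        exact div_le_div_of_nonneg_right (by norm_num) hlam.le
      obtain ⟨j, hj⟩ := P1 y hyt hy0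
      have hcv := conv (κ := κ) hv hr0 hlam hL1 hL2 (hn.trans (div_le_div_of_nonneg_right (by norm_num) hlam.le)) h30
      rw [hS1]
      refine ⟨⟨by linarith, ht3⟩, j, ?_, ?_⟩
      · rw [← hF]
        have := (abs_le.1 hj).2
        have := (abs_le.1 hXF).1
        have := (abs_le.1 hXF).2
        have := (abs_le.1 hcv).1
        have := (abs_le.1 hcv).2
        linarith
      · rw [← hF]
        have := (abs_le.1 hj).1
        have := (abs_le.1 hXF).1
        have := (abs_le.1 hXF).2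
        have := (abs_le.1 hcv).1
        have := (abs_le.1 hcv).2
        linarith
    · intro hno
      rw [hS2]
      refine ⟨⟨by linarith, ht3⟩, ?_⟩
      rintro ⟨j, hj1, hj2⟩
      apply hno
      rw [← hF] at hj1 hj2
      have hq1 := (abs_le.1 hXF).1
      have hq2 := (abs_le.1 hXF).2
      have hpos : |w.re + (j - X / Real.pi) * (Real.pi / lamT T) - (t + v * r)| ≤ 8 / lamT T := by
        have e1 : w.re + (j - X / Real.pi) * (Real.pi / lamT T) - (t + v * r) =
            (w.re - t) + (j - X / Real.pi - κ) * (Real.pi / lamT T) := by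
          have : v * r = κ * (Real.pi / lamT T) := by
            rw [mul_div_assoc', hκ2]
            field_simp
          rw [this]
          ring
        rw [e1]
        refine (abs_add_le _ _).trans ((add_le_add hxt ?_).trans (b := 16 / 5 / lamT T + 4 / lamT T) ?_)
        · rw [abs_mul, abs_of_pos (show 0 < Real.pi / lamT T by positivity)]
          have h1 : |(j:ℝ) - X / Real.pi - κ| ≤ 1 := by
            rw [abs_le]
            constructor <;> linarith
          calc |(j:ℝ) - X / Real.pi - κ| * (Real.pi / lamT T) ≤ 1 * (Real.pi / lamT T) := mul_le_mul_of_nonneg_right h1 (by positivity)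
            _ ≤ 4 / lamT T := by rw [one_mul]; exact div_le_div_of_nonneg_right hpi4.le hlam.le
        · rw [← add_div]
          exact div_le_div_of_nonneg_right (by norm_num) hlam.le
      obtain ⟨y, hy1, hy2, hy3⟩ := P2 j hpos
      have hn : |y - w.re - v * r| ≤ 30 / lamT T := by
        have e1 : y - w.re - v * r = (y - (t + v * r)) - (w.re - t) := by ring
        rw [e1]
        refine (abs_sub _ _).trans ((add_le_add hy1 hxt).trans ?_)
        rw [← add_div]
        exact div_le_div_of_nonneg_right (by norm_num) hlam.le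
      have hcv := conv (κ := κ) hv hr0 hlam hL1 hL2 hn h30
      have hc1 := (abs_le.1 hcv).1
      have hc2 := (abs_le.1 hcv).2
      have hc3 := (abs_le.1 hy3).1
      have hc4 := (abs_le.1 hy3).2
      refine ⟨b1, y, hy2, ?_, ?_⟩
      · rw [← hκ, ← hLd]
        linarith
      · rw [← hκ, ← hLd]
        linarith
  have hE1 : s * (reZ k (fun w => Ev e k w ∧ PR v a b k w) T).card ≤ T * (p + 9 * e) := by
    have h1 := pack (T := T) (D := B3 ∪ S1) hs0 (E := reZ k (fun w => Ev e k w ∧ PR v a b k w) T) ?_ (hsep _) ?_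
    · have h2 : volume ((B3 ∪ S1) ∩ Icc T (2 * T)) ≤ ENNReal.ofReal (g * T) + ENNReal.ofReal ((p + e) * T) :=
        (measure_mono Set.inter_subset_left).trans ((measure_union_le _ _).trans (add_le_add hB3v hv1))
      have h3 := h1.trans (add_le_add h2 le_rfl)
      rw [← ENNReal.ofReal_add (by positivity) (by positivity), ← ENNReal.ofReal_add (by positivity) hs0.le] at h3
      rw [ENNReal.ofReal_le_ofReal_iff (by positivity)] at h3
      linarith [mul_le_mul_of_nonneg_right hg3 hT0.le]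
    · intro x hx
      unfold reZ at hx
      rw [Finset.mem_image] at hx
      obtain ⟨w, hw, rfl⟩ := hx
      obtain ⟨_, w2, w3, _⟩ := (mem_ZD hT0.le).1 hw
      exact ⟨w2.le, w3⟩
    · intro x hx t ht1 ht2 ht3
      unfold reZ at hx
      rw [Finset.mem_image] at hx
      obtain ⟨w, hw, rfl⟩ := hx
      obtain ⟨w1, w2, w3, w4, w5⟩ := (mem_ZD hT0.le).1 hw
      exact (hmain w ((mem_ZD hT0.le).2 ⟨w1, w2, w3, w4, trivial⟩) t ht1 ht2 ht3).imp id fun h => h.1 w5
  have hE2 : s * (reZ k (fun w => Ev e k w ∧ ¬ PR v a b k w) T).card ≤ T * (1 - p + 6 * e) := by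
    have h1 := pack (T := T) (D := B3 ∪ S2) hs0 (E := reZ k (fun w => Ev e k w ∧ ¬ PR v a b k w) T) ?_ (hsep _) ?_
    · have h2 : volume ((B3 ∪ S2) ∩ Icc T (2 * T)) ≤ ENNReal.ofReal (g * T) + ENNReal.ofReal ((1 - p + e) * T) :=
        (measure_mono Set.inter_subset_left).trans ((measure_union_le _ _).trans (add_le_add hB3v hv2))
      have h3 := h1.trans (add_le_add h2 le_rfl)
      have h10 : 0 ≤ (1 - p + e) * T := mul_nonneg (by linarith) hT0.le
      rw [← ENNReal.ofReal_add (by positivity) h10, ← ENNReal.ofReal_add (by positivity) hs0.le] at h3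
      rw [ENNReal.ofReal_le_ofReal_iff (by have : 0 ≤ T * (1 - p + 6 * e) := mul_nonneg hT0.le (by linarith)
                                           positivity)] at h3
      linarith [mul_le_mul_of_nonneg_right hg3 hT0.le]
    · intro x hx
      unfold reZ at hx
      rw [Finset.mem_image] at hx
      obtain ⟨w, hw, rfl⟩ := hx
      obtain ⟨_, w2, w3, _⟩ := (mem_ZD hT0.le).1 hw
      exact ⟨w2.le, w3⟩
    · intro x hx t ht1 ht2 ht3
      unfold reZ at hx
      rw [Finset.mem_image] at hx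
      obtain ⟨w, hw, rfl⟩ := hx
      obtain ⟨w1, w2, w3, w4, w5⟩ := (mem_ZD hT0.le).1 hw
      exact (hmain w ((mem_ZD hT0.le).2 ⟨w1, w2, w3, w4, trivial⟩) t ht1 ht2 ht3).imp id fun h => h.2 w5
  -- the lower bound
  obtain ⟨N, hN⟩ : ∃ N : ℝ, N = ∑ w ∈ ZD k (fun _ => True) T, ordk k w := ⟨_, rfl⟩
  have hN0 : 0 ≤ N := by rw [hN]; exact Finset.sum_nonneg fun w _ => ordk_nonneg k w
  have hlow : T * (1 - 2 * e) ≤ s * (1 + 4 * e) * N := by
    have h1 : volume (Icc (T + 1) (2 * T) \ B0) ≤ ENNReal.ofReal (s2 * (reZ k (fun _ => True) T).card) := by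
      apply cover hs20.le
      rintro t ⟨⟨ht1, ht2⟩, htB⟩
      obtain ⟨x, hx1, hx2, hx3⟩ := (hg t (by linarith) ht2 htB).2
      rw [← hs2] at hx1
      refine ⟨x, ?_, hx2, by linarith⟩
      unfold reZ
      rw [Finset.mem_image]
      refine ⟨(x : ℂ), (mem_ZD hT0.le).2 ⟨hx3, ?_, ?_, trivial⟩, by simp⟩
      · simp only [ofReal_re]; linarith
      · simp only [ofReal_re]; linarith
    have h2 : volume (Icc (T + 1) (2 * T)) ≤ volume (Icc (T + 1) (2 * T) \ B0) + volume B0 := by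
      refine (measure_mono ?_).trans (measure_union_le _ _)
      intro t ht
      by_cases htB : t ∈ B0
      · exact Or.inr htB
      · exact Or.inl ⟨ht, htB⟩
    have h3 := h2.trans (add_le_add h1 hB0v)
    rw [Real.volume_Icc, ← ENNReal.ofReal_add (by positivity) (by positivity), ENNReal.ofReal_le_ofReal_iff (by positivity)] at h3
    have h4 : ((reZ k (fun _ => True) T).card : ℝ) ≤ N := by rw [hN]; exact card_le_sum hT0.le
    have h5 : s2 * (reZ k (fun _ => True) T).card ≤ s * (1 + 4 * e) * N :=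
      mul_le_mul hratio h4 (Nat.cast_nonneg _) (by positivity)
    linarith
  -- conclusion
  rw [cnt_ZD k _ hT0.le, cnt_ZD k _ hT0.le, ← hN]
  rw [cnt_ZD k _ hT0.le, cnt_ZD k _ hT0.le, ← hN] at hdy
  have hX : ∑ w ∈ ZD k (fun w => ¬ Ev e k w) T, ordk k w ≤ e * N := hdy.trans (mul_le_mul_of_nonneg_right (hk4 k hk4') hN0)
  have key := arith (e := e) (s := s) (N := N) (T := T) (p := p) (E1 := (reZ k (fun w => Ev e k w ∧ PR v a b k w) T).card)
    (E2 := (reZ k (fun w => Ev e k w ∧ ¬ PR v a b k w) T).card) (X := ∑ w ∈ ZD k (fun w => ¬ Ev e k w) T, ordk k w)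
    (G := ∑ w ∈ ZD k (PR v a b k) T, ordk k w) he he1 hs0 hp0 hp1 hN0 hlow hE1 hE2 hX ?_ ?_ ?_
  · change |∑ w ∈ ZD k (PR v a b k) T, ordk k w - p * N| ≤ ε * N
    exact key.trans (mul_le_mul_of_nonneg_right heε hN0)
  · rw [hN, ← cnt_card hT0.le, ← cnt_card hT0.le]
    have h1 := ZD_le (k := k) (P := fun _ => True) (Q := fun w => Ev e k w) (R := fun w => ¬ Ev e k w) hT0.le fun w _ => Classical.em _
    have h2 := ZD_le (k := k) (P := fun w => Ev e k w) (Q := fun w => Ev e k w ∧ PR v a b k w) (R := fun w => Ev e k w ∧ ¬ PR v a b k w) hT0.le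
      fun w hw => (Classical.em (PR v a b k w)).imp (fun h => ⟨hw, h⟩) fun h => ⟨hw, h⟩
    linarith
  · rw [← cnt_card hT0.le]
    exact ZD_le hT0.le fun w hw => (Classical.em (Ev e k w)).imp (fun h => ⟨h, hw⟩) id
  · rw [← cnt_card hT0.le]
    exact ZD_mono hT0.le fun w hw => hw.2

end Pool.Agent.H487.GP
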