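import Pool.Agent.H487.GP.Fin
import Pool.Agent.H487.EF.ToXi

set_option autoImplicit false

/-!
Project GP: translation to the derivatives of `xi`.
-/

open Finset Complex Filter Topology Metric Set MeasureTheory

namespace Pool.Agent.H487.GP

open Pool.Agent.Helper242.KK (FT Ph)
open Pool.Agent.H477.Jen
open Pool.Agent.H477.E
open Pool.Agent.H487.EF (neg_I_mul_re neg_I_mul_im line_pt back_pt)

/-- `PR` for `xi` -/
def PRX (v a b : ℝ) (m : ℕ) (s : ℂ) : Prop := s.re = 1 / 2 ∧ ∃ y : ℝ, iteratedDeriv m xi (1 / 2 + y * I) = 0 ∧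
  a ≤ (y - s.im) * Real.log s.im / (2 * Real.pi) - v * m / Real.pi ∧ (y - s.im) * Real.log s.im / (2 * Real.pi) - v * m / Real.pi ≤ b

theorem prx_iff (v a b : ℝ) (m : ℕ) (s : ℂ) : PRX v a b m s ↔ PR v a b m (-I * (s - 1 / 2)) := by
  unfold PRX PR
  rw [neg_I_mul_re, neg_I_mul_im]
  refine and_congr ⟨fun h => by linarith, fun h => by linarith⟩ (exists_congr fun y => and_congr ?_ Iff.rfl)
  rw [xi_iter_zero, line_pt]

end Pool.Agent.H487.GP
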