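import Pool.Agent.H487.GP.Fin
import Pool.Agent.H487.GP.ToXi
import Pool.Agent.H487.GA.Top
import Pool.Agent.H307.GP.KBH
import Pool.Agent.H736.GP.DIFK
import Pool.Agent.H874.GP.GKB
import Pool.Agent.H25.GP.FRU
import Pool.Agent.H224.GP.GAD
import Pool.Agent.H295.GP.LEV2
import Pool.Agent.H600.GP.CDF2
import Pool.Agent.H909.GP.Pers
import Pool.Agent.H353.GP.Law
import Pool.Agent.H484.GP.Theta
import Pool.Agent.H685.GP.XXA
import Pool.Agent.H82.GP.RE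
import Pool.Agent.H643.GP.ELT
import Pool.Agent.H903.GP.GDP
import Pool.Agent.H876.GP.LOCP

set_option autoImplicit false

/-! Project GP, assembled. -/

namespace Pool.Agent.H487.GP

theorem t_THETA : S_THETA := Pool.Agent.H484.GP.Theta.theta_proof

theorem t_GAD : S_GAD := Pool.Agent.H224.GP.GAD.gad_proof (Pool.Agent.H874.GP.gkb_proof Pool.Agent.H307.GP.KBH.kbh_proof) Pool.Agent.H25.GP.FRU.fru_proof

theorem t_LAW : S_LAW :=
  Pool.Agent.H353.GP.law_proof (Pool.Agent.H600.GP.cdf2_proof Pool.Agent.H295.GP.LEV2.lev2_proof Pool.Agent.H487.GA.mainy_proof t_GAD) pers_proof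

theorem t_XXA : S_XXA :=
  Pool.Agent.H685.GP.xxa_proof Pool.Agent.H487.GA.t_UAP Pool.Agent.H487.GA.l1y_proof Pool.Agent.H736.GP.difk_proof Pool.Agent.H307.GP.KBH.kbh_proof

theorem t_RE : S_RE := Pool.Agent.H82.GP.re_proof (Pool.Agent.H484.GA.prec_proof Pool.Agent.H505.GA.preca_proof)

theorem t_GDP : S_GDP :=
  Pool.Agent.H903.GP.gdp_proof Pool.Agent.H487.GA.t_GDX Pool.Agent.H487.GA.t_LGV t_RE (Pool.Agent.H628.GA.cz_proof Pool.Agent.H487.GA.deny_proof) t_XXA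
    Pool.Agent.H487.ED.t_SPC

theorem t_LOCP : S_LOCP := Pool.Agent.H876.GP.locp_proof Pool.Agent.H643.GP.elt_proof

theorem t_FINP {v a b ε : ℝ} (hv : 0 < v) (ha : -1 ≤ a) (hab : a ≤ b) (hb : b ≤ 1) (hε : 0 < ε) :
    ∃ (k0 : ℕ) (δ T0 : ℝ), 0 < δ ∧ ∀ T : ℝ, T0 ≤ T → ∀ k : ℕ, k0 ≤ k → (k : ℝ) ≤ δ * Real.log T →
    |(Pool.Agent.H477.E.cnt k (PR v a b k) (2 * T) - Pool.Agent.H477.E.cnt k (PR v a b k) T) -
      (nu v).real (SS (a + v * k / Real.pi) (b + v * k / Real.pi)) * (Pool.Agent.H477.E.cnt k (fun _ => True) (2 * T) - Pool.Agent.H477.E.cnt k (fun _ => True) T)| ≤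
      ε * (Pool.Agent.H477.E.cnt k (fun _ => True) (2 * T) - Pool.Agent.H477.E.cnt k (fun _ => True) T) :=
  finp_proof Pool.Agent.H487.GA.t_GAPL Pool.Agent.H487.GA.t_LGV Pool.Agent.H487.GA.t_GDX Pool.Agent.H487.ED.t_SPC Pool.Agent.H487.ED.t_DYA
    t_LAW t_GDP t_LOCP hv ha hab hb hε

end Pool.Agent.H487.GP
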