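import Pool.Agent.H487.GP.Stm2
import Pool.Agent.H685.GP.XXA

/-!
# Project GP: the increments of the argument are linear statistics, uniform version: `S_XXAU`
(a modified copy of `Pool/Agent/H685/GP/XXA.lean` of helper685)
-/

set_option autoImplicit false

open Finset Complex Filter Topology Metric Set MeasureTheory

namespace Pool.Agent.H487.GP.XU

open Pool.Agent.Helper242.KK (FT Ph)
open Pool.Agent.H477.Jen
open Pool.Agent.H477.E
open Pool.Agent.H487.GA
open Pool.Agent.H487.GP
open Pool.Agent.H685.GP
open Pool.Agent.H969.GA.POI (count XF_eq chi_zero Fy_int)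
open Pool.Agent.H790.GA (FT_entire)

noncomputable section

theorem xxau_proof : Pool.Agent.H487.GA.S_UAP → Pool.Agent.H487.GA.S_L1Y → S_DIFK → S_KBH →
    S_XXAU := by
  intro h1 h2 h3 h4 v1 ε hv1 hε
  obtain ⟨C1, K1, T1, hC1, hK1, hT1, H1⟩ := h1.1
  obtain ⟨C2, T2, hC2, hT2, H2⟩ := h2
  obtain ⟨c, V, hc, hV, H3⟩ := h3
  obtain ⟨C4, hC4, H4⟩ := h4
  obtain ⟨Cz, hCz, Hz⟩ := count
  obtain ⟨δ5, K5, T5, hδ5, hK5, hT5, H5⟩ := h1.2 (ε / (4 * v1)) (by positivity)
  obtain ⟨D, hD⟩ : ∃ D : ℝ, D = C2 * Real.sqrt (V + 1) / c := ⟨_, rfl⟩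
  have hD0 : 0 ≤ D := by rw [hD]; positivity
  refine ⟨min (min δ5 (1 / (2 * v1))) (min 1 (ε / (2 * v1 * (D + 1)))), max K1 K5,
    max (max T1 T2) T5, by positivity, hK1.trans (le_max_left _ _),
    (hT1.trans (le_max_left _ _)).trans (le_max_left _ _), fun v hv hvv T hT y hy hyδ hyK => ?_⟩
  have hTa : T1 ≤ T := ((le_max_left _ _).trans (le_max_left _ _)).trans hT
  have hTb : T2 ≤ T := ((le_max_right _ _).trans (le_max_left _ _)).trans hT
  have hTc : T5 ≤ T := (le_max_right _ _).trans hT
  have hT10 : 10 ≤ T := hT1.trans hTa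
  have hT0 : 0 < T := by linarith
  have hL : 1 ≤ Real.log T := by
    rw [Real.le_log_iff_exp_le (by linarith)]
    linarith [Real.exp_one_lt_three]
  have hy5 : y ≤ δ5 := (hyδ.trans (min_le_left _ _)).trans (min_le_left _ _)
  have hyv : y ≤ 1 / (2 * v1) := (hyδ.trans (min_le_left _ _)).trans (min_le_right _ _)
  have hy1 : y ≤ 1 := (hyδ.trans (min_le_right _ _)).trans (min_le_left _ _)
  have hyD : y ≤ ε / (2 * v1 * (D + 1)) := (hyδ.trans (min_le_right _ _)).trans (min_le_right _ _)
  have hK1' : K1 ≤ y * Real.log T := (le_max_left _ _).trans hyK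
  have hK5' : K5 ≤ y * Real.log T := (le_max_right _ _).trans hyK
  have hh : 0 < v * y := by positivity
  have hh2 : v * y ≤ 1 / 2 := by
    calc v * y ≤ v1 * (1 / (2 * v1)) := mul_le_mul hvv hyv hy.le hv1.le
      _ = 1 / 2 := by field_simp
  obtain ⟨Z, hZ, -⟩ := Hz T hT10
  obtain ⟨hFh, hFhs, -⟩ := H4 y hy (by linarith)
  have hFhc : Continuous (Fh y) := hFh.cd.continuous
  have hFhi : Integrable (Fh y) := int_of_C2c hFh
  have hFyi : Integrable (Fy y) := Fy_int hy
  have hadm := H3 y (Real.log T) hy (by linarith) hL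
  obtain ⟨hXc, hXl⟩ := H2 T hTb V _ hV.le hadm
  -- the interval
  set A : ℝ := T + 3 * Real.log T with hA
  set B : ℝ := 2 * T - 3 * Real.log T - 1 with hB
  have hB1 : 2 * T - 3 * Real.log T = B + 1 := by rw [hB]; ring
  have hU1 := H1 T hTa y hy (by linarith) hK1'
  have hU2 := H5 T hTc y hy hy5 hK5'
  rw [← hA, hB1] at hU1 hU2
  have hJ2 : Icc A (B + 1) ⊆ Icc (T + 2 * Real.log T) (2 * T - 2 * Real.log T) :=
    Icc_subset_Icc (by linarith) (by linarith)
  set U : ℝ → ℝ := fun τ => UU T ((τ : ℂ) - I * y) with hU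
  have hUm : Measurable U := U_meas T y
  have hUi : IntegrableOn U (Icc A (B + 1)) := by
    have h5 : IntegrableOn (fun τ => y * U τ) (Icc A (B + 1)) := by
      refine ⟨(hUm.const_mul y).aestronglyMeasurable, ?_⟩
      unfold HasFiniteIntegral
      simp only [Real.enorm_eq_ofReal_abs]
      exact lt_of_le_of_lt hU1 ENNReal.ofReal_lt_top
    have h6 : U = fun τ => y⁻¹ * (y * U τ) := by
      funext τ
      rw [← mul_assoc, inv_mul_cancel₀ hy.ne', one_mul]
    rw [h6]
    exact h5.const_mul y⁻¹
  -- the sums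
  obtain ⟨P1, hP1⟩ : ∃ P1 : ℝ → ℝ, P1 = fun τ => ∑ s ∈ Z, (mz s : ℝ) * Fy y (s.im - τ) -
      Real.log T / (2 * Real.pi) * ∫ x : ℝ, Fy y x := ⟨_, rfl⟩
  obtain ⟨P2, hP2⟩ : ∃ P2 : ℝ → ℝ, P2 = fun τ => ∑ s ∈ Z, (mz s : ℝ) * Fh y (s.im - τ) -
      Real.log T / (2 * Real.pi) * ∫ x : ℝ, Fh y x := ⟨_, rfl⟩
  have hX1 : ∀ τ ∈ Icc A (B + 1), XF (Fy y) T τ = P1 τ := by
    intro τ hτ
    rw [hP1]
    refine XF_eq hZ (Fy y) (fun x hx => ?_) τ (by linarith [hτ.1]) (by linarith [hτ.2])
    unfold Fy
    rw [chi_zero hx, mul_zero]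
  have hX3 : ∀ τ ∈ Icc A (B + 1), XF (fun x => c / y ^ 2 * (Fy y x - Fh y x)) T τ =
      c / y ^ 2 * (P1 τ - P2 τ) := by
    intro τ hτ
    rw [XF_eq hZ (fun x => c / y ^ 2 * (Fy y x - Fh y x)) hadm.c2.supp τ (by linarith [hτ.1])
      (by linarith [hτ.2]), integral_const_mul, integral_sub hFyi hFhi, hP1, hP2]
    have e : ∑ s ∈ Z, (mz s : ℝ) * (c / y ^ 2 * (Fy y (s.im - τ) - Fh y (s.im - τ))) =
        c / y ^ 2 * (∑ s ∈ Z, (mz s : ℝ) * Fy y (s.im - τ) -
          ∑ s ∈ Z, (mz s : ℝ) * Fh y (s.im - τ)) := by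
      rw [← Finset.sum_sub_distrib, Finset.mul_sum]
      exact Finset.sum_congr rfl fun s _ => by ring
    rw [e]
    ring
  have hP2c : Continuous P2 := by
    rw [hP2]
    refine Continuous.sub ?_ continuous_const
    refine continuous_finsetSum _ fun s _ => continuous_const.mul (hFhc.comp ?_)
    exact continuous_const.sub continuous_id
  obtain ⟨q, hq⟩ : ∃ q : ℝ → ℝ, q = fun τ => y * U τ - P2 τ := ⟨_, rfl⟩
  have hqm : Measurable q := by
    rw [hq]
    exact (hUm.const_mul y).sub hP2c.measurable
  -- the identity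
  have hmain : ∀ t ∈ Icc A B, XX v T y t - XF (Gv v y) T t =
      1 / y * ∫ w in (0 : ℝ)..(v * y), q (t + w) := by
    intro t ht
    have hIU : IntervalIntegrable (fun w => U (t + w)) volume 0 (v * y) := by
      have h5 : IntervalIntegrable U volume t (t + v * y) := by
        refine (hUi.mono_set ?_).intervalIntegrable
        rw [Set.uIcc_of_le (by linarith)]
        exact Icc_subset_Icc ht.1 (by linarith [ht.2])
      have h6 := h5.comp_add_left t
      rw [sub_self, add_sub_cancel_left] at h6
      exact h6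
    have hIP : IntervalIntegrable (fun w => P2 (t + w)) volume 0 (v * y) :=
      (hP2c.comp (continuous_const.add continuous_id)).intervalIntegrable _ _
    have e1 : ∫ w in (0 : ℝ)..(v * y), q (t + w) = y * (∫ w in (0 : ℝ)..(v * y), U (t + w)) -
        ∫ w in (0 : ℝ)..(v * y), P2 (t + w) := by
      rw [hq]
      simp only []
      rw [intervalIntegral.integral_sub (hIU.const_mul y) hIP, intervalIntegral.integral_const_mul]
    have e2 : XX v T y t = ∫ w in (0 : ℝ)..(v * y), U (t + w) := rfl
    have e3 : ∫ w in (0 : ℝ)..(v * y), P2 (t + w) =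
        ∑ s ∈ Z, (mz s : ℝ) * (∫ w in (0 : ℝ)..(v * y), Fh y (s.im - t - w)) -
          v * y * (Real.log T / (2 * Real.pi) * ∫ x : ℝ, Fh y x) := by
      rw [hP2]
      have hIs : ∀ s ∈ Z, IntervalIntegrable (fun w => (mz s : ℝ) * Fh y (s.im - (t + w))) volume
          0 (v * y) := by
        intro s _
        refine Continuous.intervalIntegrable ?_ _ _
        exact continuous_const.mul (hFhc.comp
          (continuous_const.sub (continuous_const.add continuous_id)))
      rw [intervalIntegral.integral_sub, intervalIntegral.integral_finsetSum hIs,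
        intervalIntegral.integral_const, sub_zero, smul_eq_mul]
      · congr 1
        refine Finset.sum_congr rfl fun s _ => ?_
        rw [intervalIntegral.integral_const_mul]
        congr 1
        refine intervalIntegral.integral_congr fun w _ => ?_
        rw [sub_sub]
      · refine Continuous.intervalIntegrable ?_ _ _
        exact continuous_finsetSum _ fun s _ => continuous_const.mul (hFhc.comp
          (continuous_const.sub (continuous_const.add continuous_id)))
      · exact intervalIntegrable_const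
    have e4 : XF (Gv v y) T t = 1 / y * ∫ w in (0 : ℝ)..(v * y), P2 (t + w) := by
      rw [XF_eq hZ (Gv v y) (Gv_supp hh hh2 hFhs) t (by linarith [ht.1]) (by linarith [ht.2]), e3,
        Gv_integral hh hFhi, mul_sub, Finset.mul_sum]
      congr 1
      · refine Finset.sum_congr rfl fun s _ => ?_
        unfold Gv
        ring
      · ring
    rw [e1, e2, e4]
    field_simp
  have hm : Measurable (fun t => 1 / y * ∫ w in (0 : ℝ)..(v * y), q (t + w)) := by
    refine Measurable.const_mul ?_ _
    have h5 : (fun t => ∫ w in (0 : ℝ)..(v * y), q (t + w)) =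
        fun t => ∫ w in Ioc 0 (v * y), q (t + w) := by
      funext t
      rw [intervalIntegral.integral_of_le hh.le]
    rw [h5]
    have h6 : StronglyMeasurable (fun p : ℝ × ℝ => q (p.1 + p.2)) :=
      (hqm.comp (measurable_fst.add measurable_snd)).stronglyMeasurable
    exact (h6.integral_prod_right' (ν := volume.restrict (Ioc 0 (v * y)))).measurable
  constructor
  · refine ⟨_, hm, ?_⟩
    rw [Filter.EventuallyEq, ae_restrict_iff' measurableSet_Icc]
    exact ae_of_all _ hmain
  · have hq1 : ∫⁻ t in Icc A (B + 1), ENNReal.ofReal |q t| ≤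
        ENNReal.ofReal (ε / (4 * v1) * T) + ENNReal.ofReal (D * y ^ 2 * T) := by
      have h5 : ∫⁻ t in Icc A (B + 1), ENNReal.ofReal |P1 t - P2 t| ≤
          ENNReal.ofReal (D * y ^ 2 * T) := by
        calc ∫⁻ t in Icc A (B + 1), ENNReal.ofReal |P1 t - P2 t|
            = ∫⁻ t in Icc A (B + 1), ENNReal.ofReal (y ^ 2 / c) *
                ENNReal.ofReal |XF (fun x => c / y ^ 2 * (Fy y x - Fh y x)) T t| := by
              refine setLIntegral_congr_fun measurableSet_Icc fun t ht => ?_
              rw [hX3 t ht, ← ENNReal.ofReal_mul (by positivity), abs_mul,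
                abs_of_pos (by positivity : 0 < c / y ^ 2)]
              congr 1
              field_simp
          _ = ENNReal.ofReal (y ^ 2 / c) * ∫⁻ t in Icc A (B + 1),
                ENNReal.ofReal |XF (fun x => c / y ^ 2 * (Fy y x - Fh y x)) T t| :=
              lintegral_const_mul' _ _ ENNReal.ofReal_ne_top
          _ ≤ ENNReal.ofReal (y ^ 2 / c) * ENNReal.ofReal (C2 * T * Real.sqrt (V + 1)) :=
              mul_le_mul_right ((lintegral_mono_set hJ2).trans hXl) _
          _ = ENNReal.ofReal (D * y ^ 2 * T) := by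
              rw [← ENNReal.ofReal_mul (by positivity), hD]
              congr 1
              ring
      have hPm : AEMeasurable (fun t => ENNReal.ofReal |y * U t - XF (Fy y) T t|)
          (volume.restrict (Icc A (B + 1))) := by
        have h6 : Measurable (fun t => ENNReal.ofReal |y * U t - P1 t|) := by
          refine (((hUm.const_mul y).sub ?_).abs).ennreal_ofReal
          rw [hP1]
          refine Measurable.sub_const ?_ _
          refine Finset.measurable_sum _ fun s _ => ?_
          refine Measurable.const_mul ?_ _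
          have h7 : Measurable (Fy y) := by
            have h8 : Continuous (Fy y) := by
              unfold Fy
              refine Continuous.mul ?_ Pool.Agent.H969.GA.POI.chi_cont
              refine continuous_const.div (by fun_prop) fun x => ?_
              positivity
            exact h8.measurable
          exact h7.comp (measurable_const.sub measurable_id)
        refine ⟨_, h6, ?_⟩
        rw [Filter.EventuallyEq, ae_restrict_iff' measurableSet_Icc]
        exact ae_of_all _ fun t ht => by rw [hX1 t ht]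
      calc ∫⁻ t in Icc A (B + 1), ENNReal.ofReal |q t|
          ≤ ∫⁻ t in Icc A (B + 1), (ENNReal.ofReal |y * U t - XF (Fy y) T t| +
              ENNReal.ofReal |P1 t - P2 t|) := by
            refine setLIntegral_mono' measurableSet_Icc fun t ht => ?_
            rw [← ENNReal.ofReal_add (abs_nonneg _) (abs_nonneg _)]
            apply ENNReal.ofReal_le_ofReal
            rw [hX1 t ht, hq]
            have e : y * U t - P2 t = (y * U t - P1 t) + (P1 t - P2 t) := by ring
            change |y * U t - P2 t| ≤ _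
            rw [e]
            exact abs_add_le _ _
        _ = (∫⁻ t in Icc A (B + 1), ENNReal.ofReal |y * U t - XF (Fy y) T t|) +
              ∫⁻ t in Icc A (B + 1), ENNReal.ofReal |P1 t - P2 t| := lintegral_add_left' hPm _
        _ ≤ _ := add_le_add hU2 h5
    calc ∫⁻ t in Icc A B, ENNReal.ofReal |XX v T y t - XF (Gv v y) T t|
        = ∫⁻ t in Icc A B, ENNReal.ofReal (1 / y) *
            ENNReal.ofReal |∫ w in (0 : ℝ)..(v * y), q (t + w)| := by
          refine setLIntegral_congr_fun measurableSet_Icc fun t ht => ?_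
          rw [hmain t ht, abs_mul, abs_of_pos (by positivity : 0 < 1 / y),
            ENNReal.ofReal_mul (by positivity)]
      _ = ENNReal.ofReal (1 / y) * ∫⁻ t in Icc A B,
            ENNReal.ofReal |∫ w in (0 : ℝ)..(v * y), q (t + w)| :=
          lintegral_const_mul' _ _ ENNReal.ofReal_ne_top
      _ ≤ ENNReal.ofReal (1 / y) * (ENNReal.ofReal (v * y) *
            (ENNReal.ofReal (ε / (4 * v1) * T) + ENNReal.ofReal (D * y ^ 2 * T))) :=
          mul_le_mul_right ((avg hqm hh (by linarith)).trans (mul_le_mul_right hq1 _)) _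
      _ = ENNReal.ofReal (1 / y * (v * y * (ε / (4 * v1) * T + D * y ^ 2 * T))) := by
          rw [← ENNReal.ofReal_add (by positivity) (by positivity),
            ← ENNReal.ofReal_mul (by positivity), ← ENNReal.ofReal_mul (by positivity)]
      _ ≤ ENNReal.ofReal (ε * T) := by
          apply ENNReal.ofReal_le_ofReal
          have e1 : 1 / y * (v * y * (ε / (4 * v1) * T + D * y ^ 2 * T)) =
              v * (ε / (4 * v1) * T + D * y ^ 2 * T) := by
            field_simp
          have e1' : v * (ε / (4 * v1) * T + D * y ^ 2 * T) ≤ v1 * (ε / (4 * v1) * T + D * y ^ 2 * T) :=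
            mul_le_mul_of_nonneg_right hvv (by positivity)
          have e1'' : v1 * (ε / (4 * v1) * T + D * y ^ 2 * T) = ε / 4 * T + v1 * D * y ^ 2 * T := by
            field_simp
          rw [e1]
          refine e1'.trans ?_
          rw [e1'']
          have e2 : y * (2 * v1 * (D + 1)) ≤ ε := by
            rwa [le_div_iff₀ (by positivity)] at hyD
          have e3 : y ^ 2 ≤ y := by nlinarith
          have e4 : v1 * D * y ^ 2 ≤ v1 * D * y := mul_le_mul_of_nonneg_left e3 (by positivity)
          have e5 : v1 * D * y ≤ ε / 2 := by nlinarith [mul_pos hv1 hy]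
          nlinarith

end

end Pool.Agent.H487.GP.XU
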