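import Pool.Agent.H487.GP.FinU
import Pool.Agent.H487.GP.Top
import Pool.Agent.H487.GP.XXAU
import Pool.Agent.H111.GP.GADU
import Pool.Agent.H353.GP.LawU
import Pool.Agent.H163.GP.PersU
import Pool.Agent.H4.GP.GKBU
import Pool.Agent.H277.GP.GDPU
import Pool.Agent.H36.GP.CDFU

set_option autoImplicit false

/-! Project GP, uniform version, assembled. -/

namespace Pool.Agent.H487.GP

theorem t_GKBU : S_GKBU := Pool.Agent.H4.GP.gkbu_proof Pool.Agent.H307.GP.KBH.kbh_proof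

theorem t_GADU : S_GADU := Pool.Agent.H111.GP.GADU.gadu_proof t_GKBU Pool.Agent.H25.GP.FRU.fru_proof

theorem t_CDFU : S_CDFU := Pool.Agent.H36.GP.cdfu_proof Pool.Agent.H295.GP.LEV2.lev2_proof Pool.Agent.H487.GA.mainy_proof t_GADU

theorem t_LAWU : S_LAWU := Pool.Agent.H353.GP.U.lawu_proof t_CDFU persu_proof

theorem t_XXAU : S_XXAU :=
  XU.xxau_proof Pool.Agent.H487.GA.t_UAP Pool.Agent.H487.GA.l1y_proof Pool.Agent.H736.GP.difk_proof Pool.Agent.H307.GP.KBH.kbh_proof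

theorem t_GDPU : S_GDPU :=
  Pool.Agent.H277.GP.gdpu_proof Pool.Agent.H487.GA.t_GDX Pool.Agent.H487.GA.t_LGV t_RE (Pool.Agent.H628.GA.cz_proof Pool.Agent.H487.GA.deny_proof) t_XXAU
    Pool.Agent.H487.ED.t_SPC

theorem t_FINPU {v0 v1 ε : ℝ} (hv0 : 0 < v0) (hv01 : v0 ≤ v1) (hε : 0 < ε) :
    ∃ (k0 : ℕ) (δ T0 : ℝ), 0 < δ ∧ ∀ T : ℝ, T0 ≤ T → ∀ k : ℕ, k0 ≤ k → (k : ℝ) ≤ δ * Real.log T →
    ∀ v : ℝ, v0 ≤ v → v ≤ v1 → ∀ a b : ℝ, -1 ≤ a → b ≤ 1 →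
    |(Pool.Agent.H477.E.cnt k (PR v a b k) (2 * T) - Pool.Agent.H477.E.cnt k (PR v a b k) T) -
      (nu v).real (SS (a + v * k / Real.pi) (b + v * k / Real.pi)) * (Pool.Agent.H477.E.cnt k (fun _ => True) (2 * T) - Pool.Agent.H477.E.cnt k (fun _ => True) T)| ≤
      ε * (Pool.Agent.H477.E.cnt k (fun _ => True) (2 * T) - Pool.Agent.H477.E.cnt k (fun _ => True) T) :=
  finpu_proof Pool.Agent.H487.GA.t_GAPL Pool.Agent.H487.GA.t_LGV Pool.Agent.H487.GA.t_GDX Pool.Agent.H487.ED.t_SPC Pool.Agent.H487.ED.t_DYA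
    t_LAWU t_GDPU t_LOCP hv0 hv01 hε

end Pool.Agent.H487.GP
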