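import Pool.Agent.H487.GP.Stm3
import Pool.Agent.H487.GP.TopU

set_option autoImplicit false

/-!
# Project GP (helper487), third part, assembled: the number of all pairs, for `k ≥ C log log T`
-/

open Finset Complex Filter Topology Metric Set MeasureTheory

namespace Pool.Agent.H487.GP

open Pool.Agent.Helper242.KK (FT Ph)
open Pool.Agent.H477.Jen
open Pool.Agent.H477.E
open Pool.Agent.H487.GA

noncomputable section

theorem cfil_sum (P : ℂ → Prop) (S : Finset ℂ) (f : ℂ → ℝ) :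
    ∑ w ∈ cfil P S, f w = ∑ w ∈ S, @ite ℝ (P w) (Classical.propDecidable _) (f w) 0 := by
  classical
  unfold cfil
  rw [Finset.sum_filter]

theorem pc_split (k : ℕ) (T y h : ℝ) (hh : 0 ≤ h) (w : ℂ) :
    pc k T y h w = pc k T y (h / 2) w + pc k T (y + h / 2) (h / 2) w - pc k T (y + h / 2) 0 w := by
  classical
  unfold pc
  rw [cfil_sum, cfil_sum, cfil_sum, cfil_sum, ← Finset.sum_add_distrib, ← Finset.sum_sub_distrib]
  refine Finset.sum_congr rfl fun z _ => ?_
  unfold Wi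
  obtain ⟨q, hq⟩ : ∃ q : ℝ, q = (z.re - w.re) * Real.log w.re / (2 * Real.pi) := ⟨_, rfl⟩
  rw [← hq]
  by_cases h1 : y ≤ q <;> by_cases h2 : q ≤ y + h
  · rcases lt_trichotomy q (y + h / 2) with h3 | h3 | h3
    · rw [if_pos ⟨h1, h2⟩, if_pos ⟨h1, h3.le⟩, if_neg (by rintro ⟨h5, _⟩; linarith), if_neg (by rintro ⟨h5, _⟩; linarith)]
      ring
    · rw [if_pos ⟨h1, h2⟩, if_pos ⟨h1, h3.le⟩, if_pos ⟨h3.ge, by linarith⟩, if_pos ⟨h3.ge, by linarith⟩]
      ring
    · rw [if_pos ⟨h1, h2⟩, if_neg (by rintro ⟨_, h5⟩; linarith), if_pos ⟨h3.le, by linarith⟩, if_neg (by rintro ⟨_, h5⟩; linarith)]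
      ring
  · push Not at h2
    rw [if_neg (by rintro ⟨_, h5⟩; linarith), if_neg (by rintro ⟨_, h5⟩; linarith), if_neg (by rintro ⟨_, h5⟩; linarith),
      if_neg (by rintro ⟨_, h5⟩; linarith)]
    ring
  · push Not at h1
    rw [if_neg (by rintro ⟨h5, _⟩; linarith), if_neg (by rintro ⟨h5, _⟩; linarith), if_neg (by rintro ⟨h5, _⟩; linarith),
      if_neg (by rintro ⟨h5, _⟩; linarith)]
    ring
  · push Not at h1
    rw [if_neg (by rintro ⟨h5, _⟩; linarith), if_neg (by rintro ⟨h5, _⟩; linarith), if_neg (by rintro ⟨h5, _⟩; linarith),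
      if_neg (by rintro ⟨h5, _⟩; linarith)]
    ring

theorem zd_sum (k : ℕ) (P : ℂ → Prop) {T : ℝ} (hT : 0 ≤ T) : ∑ w ∈ ZD k P T, ordk k w = cnt k P (2 * T) - cnt k P T := by
  rw [cnt_split k P (show T ≤ 2 * T by linarith), add_sub_cancel_left]
  rfl

theorem prr_sum (k : ℕ) {y a h : ℝ} (hk : (0:ℝ) < k) {T : ℝ} (hT : 0 ≤ T) :
    ∑ w ∈ ZD k (PRR (y + a) h k) T, ordk k w = cnt k (PR (Real.pi * (y / k)) a (a + h) k) (2 * T) - cnt k (PR (Real.pi * (y / k)) a (a + h) k) T := by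
  have hpi := Real.pi_pos
  rw [zd_sum k _ hT]
  have e : PRR (y + a) h k = PR (Real.pi * (y / k)) a (a + h) k := by
    funext w
    unfold PRR PR Wi
    have es : Real.pi * (y / k) * k / Real.pi = y := by
      field_simp
    rw [es]
    refine propext (and_congr Iff.rfl (exists_congr fun g => and_congr Iff.rfl ?_))
    simp only [Complex.ofReal_re]
    refine and_congr ⟨fun h => by linarith, fun h => by linarith⟩ ⟨fun h => by linarith, fun h => by linarith⟩
  rw [e]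

theorem cnt_nn (k : ℕ) {T : ℝ} (hT : 0 ≤ T) : 0 ≤ cnt k (fun _ => True) (2 * T) - cnt k (fun _ => True) T := by
  rw [← zd_sum k _ hT]
  exact Finset.sum_nonneg fun w _ => ordk_nonneg k w

theorem pairs_fin (hP : S_PAIRS) {s0 s1 ε : ℝ} (h0 : 0 < s0) (h01 : s0 ≤ s1) (hε : 0 < ε) :
    ∃ (k0 : ℕ) (C δ T0 : ℝ), 0 < δ ∧ ∀ T : ℝ, T0 ≤ T → ∀ k : ℕ, k0 ≤ k → C * Real.log (Real.log T) ≤ k → (k : ℝ) ≤ δ * Real.log T →
    ∀ y h : ℝ, s0 * k ≤ y → y ≤ s1 * k → 0 ≤ h → h ≤ 1 →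
    |∑ w ∈ ZD k (fun _ => True) T, ordk k w * pc k T y h w -
      ((nu (Real.pi * (y / k))).real (SS y (y + h / 2)) + (nu (Real.pi * (y / k))).real (SS (y + h / 2) (y + h)) -
        (nu (Real.pi * (y / k))).real (SS (y + h / 2) (y + h / 2))) *
        (cnt k (fun _ => True) (2 * T) - cnt k (fun _ => True) T)| ≤
      ε * (cnt k (fun _ => True) (2 * T) - cnt k (fun _ => True) T) := by
  have hpi := Real.pi_pos
  obtain ⟨k1, δ1, T1, hδ1, H1⟩ := t_FINPU (v0 := Real.pi * s0) (v1 := Real.pi * s1) (mul_pos hpi h0)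
    (mul_le_mul_of_nonneg_left h01 hpi.le) (show 0 < ε / 6 by positivity)
  obtain ⟨C, δ2, T2, hδ2, H2⟩ := hP (s1 + 1) (ε / 6) (by linarith) (by positivity)
  obtain ⟨k2, hk2⟩ := exists_nat_ge (1 / s0)
  refine ⟨max (max k1 k2) 1, C, min δ1 δ2, max (max T1 T2) 3, lt_min hδ1 hδ2, fun T hT k hk hkC hkT y h hy0 hy1 hh0 hh1 => ?_⟩
  have hTa : T1 ≤ T := ((le_max_left _ _).trans (le_max_left _ _)).trans hT
  have hTb : T2 ≤ T := ((le_max_right _ _).trans (le_max_left _ _)).trans hT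
  have hTc : 3 ≤ T := (le_max_right _ _).trans hT
  have hT0 : 0 ≤ T := by linarith
  have hL : 0 ≤ Real.log T := Real.log_nonneg (by linarith)
  have hka : k1 ≤ k := ((le_max_left _ _).trans (le_max_left _ _)).trans hk
  have hkb : k2 ≤ k := ((le_max_right _ _).trans (le_max_left _ _)).trans hk
  have hkc : (1:ℝ) ≤ k := by exact_mod_cast (le_max_right _ _).trans hk
  have hk0 : (0:ℝ) < k := by linarith
  have hkT1 : (k:ℝ) ≤ δ1 * Real.log T := hkT.trans (mul_le_mul_of_nonneg_right (min_le_left _ _) hL)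
  have hkT2 : (k:ℝ) ≤ δ2 * Real.log T := hkT.trans (mul_le_mul_of_nonneg_right (min_le_right _ _) hL)
  have hy_one : 1 ≤ y := by
    have h1 : 1 / s0 ≤ k := hk2.trans (by exact_mod_cast hkb)
    rw [div_le_iff₀ h0] at h1
    linarith
  have hv0 : Real.pi * s0 ≤ Real.pi * (y / k) := by
    apply mul_le_mul_of_nonneg_left _ hpi.le
    rw [le_div_iff₀ hk0]
    exact hy0
  have hv1 : Real.pi * (y / k) ≤ Real.pi * s1 := by
    apply mul_le_mul_of_nonneg_left _ hpi.le
    rw [div_le_iff₀ hk0]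
    exact hy1
  obtain ⟨N, hN⟩ : ∃ N : ℝ, N = cnt k (fun _ => True) (2 * T) - cnt k (fun _ => True) T := ⟨_, rfl⟩
  have hN0 : ∑ w ∈ ZD k (fun _ => True) T, ordk k w = N := by rw [hN, zd_sum k _ hT0]
  rw [← hN]
  have key : ∀ a g : ℝ, 0 ≤ a → 0 ≤ g → g ≤ 1 / 2 → a + g ≤ 1 →
      |∑ w ∈ ZD k (fun _ => True) T, ordk k w * pc k T (y + a) g w -
        (nu (Real.pi * (y / k))).real (SS (y + a) (y + a + g)) * N| ≤ ε / 3 * N := by
    intro a g ha hg hg2 hag
    have g1 := H1 T hTa k hka hkT1 (Real.pi * (y / k)) hv0 hv1 a (a + g) (by linarith) hag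
    have g2 := H2 T hTb k hkC hkT2 (y + a) g (by linarith) (by nlinarith) hg hg2
    rw [prr_sum k hk0 hT0, hN0] at g2
    rw [← hN] at g1
    have es : Real.pi * (y / k) * k / Real.pi = y := by
      field_simp
    rw [es, show a + y = y + a by ring, show a + g + y = y + a + g by ring] at g1
    have e : ∀ A B D : ℝ, |A - B| ≤ ε / 6 * N → |B - D| ≤ ε / 6 * N → |A - D| ≤ ε / 3 * N := by
      intro A B D q1 q2
      have := abs_sub_le A B D
      linarith
    exact e _ _ _ g2 g1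
  have c1 := key 0 (h / 2) le_rfl (by linarith) (by linarith) (by linarith)
  have c2 := key (h / 2) (h / 2) (by linarith) (by linarith) (by linarith) (by linarith)
  have c3 := key (h / 2) 0 (by linarith) le_rfl (by norm_num) (by linarith)
  rw [add_zero] at c1 c3
  rw [show y + h / 2 + h / 2 = y + h by ring] at c2
  have e1 : ∑ w ∈ ZD k (fun _ => True) T, ordk k w * pc k T y h w =
      ∑ w ∈ ZD k (fun _ => True) T, ordk k w * pc k T y (h / 2) w +
      ∑ w ∈ ZD k (fun _ => True) T, ordk k w * pc k T (y + h / 2) (h / 2) w -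
      ∑ w ∈ ZD k (fun _ => True) T, ordk k w * pc k T (y + h / 2) 0 w := by
    rw [← Finset.sum_add_distrib, ← Finset.sum_sub_distrib]
    refine Finset.sum_congr rfl fun w _ => ?_
    rw [pc_split k T y h hh0 w]
    ring
  rw [e1]
  have e : ∀ A B D a b d : ℝ, |A - a * N| ≤ ε / 3 * N → |B - b * N| ≤ ε / 3 * N → |D - d * N| ≤ ε / 3 * N → |A + B - D - (a + b - d) * N| ≤ ε * N := by
    intro A B D a b d q1 q2 q3
    rw [abs_le] at q1 q2 q3 ⊢
    constructor <;> linarith [q1.1, q1.2, q2.1, q2.2, q3.1, q3.2]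
  exact e _ _ _ _ _ _ c1 c2 c3

end

end Pool.Agent.H487.GP
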