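import Pool.Agent.H487.GP.TopV

set_option autoImplicit false

/-!
# Project GP (helper487), windows of any length
-/

open Finset Complex Filter Topology Metric Set MeasureTheory

namespace Pool.Agent.H487.GP

open Pool.Agent.Helper242.KK (FT Ph)
open Pool.Agent.H477.Jen
open Pool.Agent.H477.E
open Pool.Agent.H487.GA

noncomputable section

/-- the theta function -/
def Den (s x : ℝ) : ℝ :=
  1 + 2 * ∑' n : ℕ, Real.cos (2 * Real.pi * (n + 1) * x) / (1 + (Real.pi * s / 2) ^ 2) ^ ((n + 1) ^ 2)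

theorem q_one {s : ℝ} (hs : 0 < s) : (1:ℝ) < 1 + (Real.pi * s / 2) ^ 2 := by
  have := Real.pi_pos
  have : 0 < (Real.pi * s / 2) ^ 2 := by positivity
  linarith

theorem a_le {s0 s : ℝ} (h0 : 0 < s0) (hs : s0 ≤ s) (n : ℕ) :
    1 / (1 + (Real.pi * s / 2) ^ 2) ^ ((n + 1) ^ 2) ≤ (1 / (1 + (Real.pi * s0 / 2) ^ 2)) ^ n := by
  have hpi := Real.pi_pos
  have h1 := q_one h0
  have h2 : 1 + (Real.pi * s0 / 2) ^ 2 ≤ 1 + (Real.pi * s / 2) ^ 2 := by
    have h3 : Real.pi * s0 / 2 ≤ Real.pi * s / 2 := by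
      have := mul_le_mul_of_nonneg_left hs hpi.le
      linarith
    have h4 := pow_le_pow_left₀ (show 0 ≤ Real.pi * s0 / 2 by positivity) h3 2
    linarith
  rw [one_div_pow]
  apply one_div_le_one_div_of_le (by positivity)
  calc (1 + (Real.pi * s0 / 2) ^ 2) ^ n ≤ (1 + (Real.pi * s0 / 2) ^ 2) ^ ((n + 1) ^ 2) := pow_le_pow_right₀ h1.le (by nlinarith)
    _ ≤ _ := pow_le_pow_left₀ (by linarith) h2 _

theorem geo_sum {s0 : ℝ} (h0 : 0 < s0) : Summable fun n : ℕ => (1 / (1 + (Real.pi * s0 / 2) ^ 2)) ^ n := by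
  have h1 := q_one h0
  exact summable_geometric_of_lt_one (by positivity) (by rw [div_lt_one (by linarith)]; exact h1)

theorem a_nn (s : ℝ) (n : ℕ) : 0 ≤ 1 / (1 + (Real.pi * s / 2) ^ 2) ^ ((n + 1) ^ 2) := by positivity

theorem term_le {s0 s : ℝ} (h0 : 0 < s0) (hs : s0 ≤ s) (n : ℕ) (x : ℝ) :
    ‖Real.cos (2 * Real.pi * (n + 1) * x) / (1 + (Real.pi * s / 2) ^ 2) ^ ((n + 1) ^ 2)‖ ≤ (1 / (1 + (Real.pi * s0 / 2) ^ 2)) ^ n := by
  refine le_trans ?_ (a_le h0 hs n)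
  rw [div_eq_mul_one_div, norm_mul, Real.norm_eq_abs, Real.norm_eq_abs, abs_of_nonneg (a_nn s n)]
  exact mul_le_of_le_one_left (a_nn s n) (Real.abs_cos_le_one _)

theorem den_cont {s0 : ℝ} (h0 : 0 < s0) : ContinuousOn (fun p : ℝ × ℝ => Den p.1 p.2) {p | s0 ≤ p.1} := by
  unfold Den
  refine continuousOn_const.add (continuousOn_const.mul ?_)
  refine continuousOn_tsum (u := fun n : ℕ => (1 / (1 + (Real.pi * s0 / 2) ^ 2)) ^ n) (fun n => ?_) (geo_sum h0) fun n p hp => ?_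
  · refine Continuous.continuousOn ?_
    refine Continuous.div (by fun_prop) (by fun_prop) fun p => ?_
    positivity
  · exact term_le h0 hp n p.2

theorem g_cont {s0 : ℝ} (h0 : 0 < s0) : ContinuousOn (fun p : ℝ × ℝ => ∑' n : ℕ,
    |1 / (1 + (Real.pi * p.1 / 2) ^ 2) ^ ((n + 1) ^ 2) - 1 / (1 + (Real.pi * p.2 / 2) ^ 2) ^ ((n + 1) ^ 2)|) {p | s0 ≤ p.1 ∧ s0 ≤ p.2} := by
  refine continuousOn_tsum (u := fun n : ℕ => (1 / (1 + (Real.pi * s0 / 2) ^ 2)) ^ n) (fun n => ?_) (geo_sum h0) fun n p hp => ?_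
  · refine Continuous.continuousOn ?_
    refine Continuous.abs (Continuous.sub ?_ ?_)
    · refine Continuous.div continuous_const (by fun_prop) fun p => ?_
      positivity
    · refine Continuous.div continuous_const (by fun_prop) fun p => ?_
      positivity
  · have h1 := a_le h0 hp.1 n
    have h2 := a_le h0 hp.2 n
    have h3 := a_nn p.1 n
    have h4 := a_nn p.2 n
    rw [Real.norm_eq_abs, abs_abs, abs_le]
    constructor <;> linarith

theorem den_diff {s0 s t : ℝ} (h0 : 0 < s0) (hs : s0 ≤ s) (ht : s0 ≤ t) (x : ℝ) :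
    |Den s x - Den t x| ≤ 2 * ∑' n : ℕ, |1 / (1 + (Real.pi * s / 2) ^ 2) ^ ((n + 1) ^ 2) - 1 / (1 + (Real.pi * t / 2) ^ 2) ^ ((n + 1) ^ 2)| := by
  have hsum : Summable fun n : ℕ => |1 / (1 + (Real.pi * s / 2) ^ 2) ^ ((n + 1) ^ 2) - 1 / (1 + (Real.pi * t / 2) ^ 2) ^ ((n + 1) ^ 2)| := by
    refine Summable.of_nonneg_of_le (fun n => abs_nonneg _) (fun n => ?_) (geo_sum h0)
    have h1 := a_le h0 hs n
    have h2 := a_le h0 ht n
    have h3 := a_nn s n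
    have h4 := a_nn t n
    rw [abs_le]
    constructor <;> linarith
  have hA : Summable fun n : ℕ => Real.cos (2 * Real.pi * (n + 1) * x) / (1 + (Real.pi * s / 2) ^ 2) ^ ((n + 1) ^ 2) :=
    Summable.of_norm_bounded (geo_sum h0) fun n => term_le h0 hs n x
  have hB : Summable fun n : ℕ => Real.cos (2 * Real.pi * (n + 1) * x) / (1 + (Real.pi * t / 2) ^ 2) ^ ((n + 1) ^ 2) :=
    Summable.of_norm_bounded (geo_sum h0) fun n => term_le h0 ht n x
  have e : Den s x - Den t x = 2 * ∑' n : ℕ, (Real.cos (2 * Real.pi * (n + 1) * x) / (1 + (Real.pi * s / 2) ^ 2) ^ ((n + 1) ^ 2) -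
      Real.cos (2 * Real.pi * (n + 1) * x) / (1 + (Real.pi * t / 2) ^ 2) ^ ((n + 1) ^ 2)) := by
    unfold Den
    rw [hA.tsum_sub hB]
    ring
  rw [e, abs_mul, abs_two]
  apply mul_le_mul_of_nonneg_left _ (by norm_num)
  have hb : ∀ n : ℕ, ‖Real.cos (2 * Real.pi * (n + 1) * x) / (1 + (Real.pi * s / 2) ^ 2) ^ ((n + 1) ^ 2) -
      Real.cos (2 * Real.pi * (n + 1) * x) / (1 + (Real.pi * t / 2) ^ 2) ^ ((n + 1) ^ 2)‖ ≤
      |1 / (1 + (Real.pi * s / 2) ^ 2) ^ ((n + 1) ^ 2) - 1 / (1 + (Real.pi * t / 2) ^ 2) ^ ((n + 1) ^ 2)| := by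
    intro n
    rw [div_eq_mul_one_div, div_eq_mul_one_div (Real.cos _) ((1 + (Real.pi * t / 2) ^ 2) ^ ((n + 1) ^ 2)), ← mul_sub, norm_mul,
      Real.norm_eq_abs, Real.norm_eq_abs]
    exact mul_le_of_le_one_left (abs_nonneg _) (Real.abs_cos_le_one _)
  have := tsum_of_norm_bounded hsum.hasSum hb
  rwa [Real.norm_eq_abs] at this

/-- the theta functions depend continuously on the parameter -/
theorem den_unif {s0 s1 ε : ℝ} (h0 : 0 < s0) (hε : 0 < ε) : ∃ η : ℝ, 0 < η ∧ ∀ s t : ℝ, s0 ≤ s → s ≤ s1 → s0 ≤ t → t ≤ s1 → |s - t| ≤ η →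
    ∀ x : ℝ, |Den s x - Den t x| ≤ ε := by
  have hK : IsCompact ((Set.Icc s0 s1) ×ˢ (Set.Icc s0 s1)) := isCompact_Icc.prod isCompact_Icc
  have hsub : (Set.Icc s0 s1) ×ˢ (Set.Icc s0 s1) ⊆ {p : ℝ × ℝ | s0 ≤ p.1 ∧ s0 ≤ p.2} := fun p hp => ⟨hp.1.1, hp.2.1⟩
  have hc := (g_cont h0).mono hsub
  have hu := hK.uniformContinuousOn_of_continuous hc
  rw [Metric.uniformContinuousOn_iff] at hu
  obtain ⟨η, hη, H⟩ := hu (ε / 2) (by positivity)
  refine ⟨η / 2, by positivity, fun s t hs0 hs1 ht0 ht1 hst x => ?_⟩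
  have h1 := H (s, t) ⟨⟨hs0, hs1⟩, ⟨ht0, ht1⟩⟩ (s, s) ⟨⟨hs0, hs1⟩, ⟨hs0, hs1⟩⟩ (by
    rw [Prod.dist_eq, dist_self, max_lt_iff]
    refine ⟨hη, ?_⟩
    rw [dist_comm, Real.dist_eq]
    simp only []
    linarith)
  rw [Real.dist_eq] at h1
  simp only [sub_self, abs_zero, tsum_zero, sub_zero] at h1
  have h2 := den_diff h0 hs0 ht0 x
  have h3 := le_abs_self (∑' n : ℕ, |1 / (1 + (Real.pi * s / 2) ^ 2) ^ ((n + 1) ^ 2) - 1 / (1 + (Real.pi * t / 2) ^ 2) ^ ((n + 1) ^ 2)|)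
  linarith

theorem den_int1 {s0 : ℝ} (h0 : 0 < s0) (s y z : ℝ) (hs : s0 ≤ s) : IntervalIntegrable (fun x => Den s x) volume y z := by
  refine ContinuousOn.intervalIntegrable ?_
  exact (den_cont h0).comp (f := fun x : ℝ => (s, x)) (by fun_prop) fun x _ => hs

theorem den_int2 {s0 k y z : ℝ} (h0 : 0 < s0) (hk : 0 < k) (hyz : y ≤ z) (hy : s0 * k ≤ y) : IntervalIntegrable (fun x => Den (x / k) x) volume y z := by
  refine ContinuousOn.intervalIntegrable ?_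
  rw [Set.uIcc_of_le hyz]
  refine (den_cont h0).comp (f := fun x : ℝ => (x / k, x)) (by fun_prop) fun x hx => ?_
  show s0 ≤ x / k
  rw [le_div_iff₀ hk]
  linarith [hx.1]

/-- freezing the parameter -/
theorem den_freeze {s0 s1 ε : ℝ} (h0 : 0 < s0) (hε : 0 < ε) : ∃ K : ℝ, 0 < K ∧ ∀ k y g : ℝ, K ≤ k → s0 * k ≤ y → 0 ≤ g → g ≤ 1 → y + g ≤ s1 * k →
    |(∫ x in y..(y + g), Den (y / k) x) - ∫ x in y..(y + g), Den (x / k) x| ≤ ε := by
  obtain ⟨η, hη, H⟩ := den_unif (s0 := s0) (s1 := s1) h0 hε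
  refine ⟨1 / η, by positivity, fun k y g hk hy hg0 hg1 hyg => ?_⟩
  have hk0 : 0 < k := lt_of_lt_of_le (by positivity) hk
  have hk1 : 1 / k ≤ η := by
    rw [div_le_iff₀ hη] at hk
    rw [div_le_iff₀ hk0]
    linarith
  have hys : s0 ≤ y / k := by rw [le_div_iff₀ hk0]; exact hy
  rw [← intervalIntegral.integral_sub (den_int1 h0 _ _ _ hys) (den_int2 h0 hk0 (by linarith) hy)]
  have h1 := intervalIntegral.norm_integral_le_of_norm_le_const (a := y) (b := y + g) (C := ε)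
    (f := fun x => Den (y / k) x - Den (x / k) x) (fun x hx => ?_)
  · rw [Real.norm_eq_abs] at h1
    refine h1.trans ?_
    rw [add_sub_cancel_left, abs_of_nonneg hg0]
    exact mul_le_of_le_one_right hε.le hg1
  · rw [Set.uIoc_of_le (by linarith)] at hx
    rw [Real.norm_eq_abs]
    refine H _ _ hys ?_ ?_ ?_ ?_ x
    · rw [div_le_iff₀ hk0]; linarith
    · rw [le_div_iff₀ hk0]; linarith [hx.1]
    · rw [div_le_iff₀ hk0]; linarith [hx.2]
    · rw [← sub_div, abs_div, abs_of_pos hk0]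
      refine le_trans ?_ hk1
      apply div_le_div_of_nonneg_right _ hk0.le
      rw [abs_le]
      constructor <;> linarith [hx.1, hx.2]

/-- the weighted number of pairs -/
def Pw (k : ℕ) (T y h : ℝ) : ℝ := ∑ w ∈ ZD k (fun _ => True) T, ordk k w * pc k T y h w

theorem pc_split2 (k : ℕ) (T y : ℝ) {h1 h2 : ℝ} (hh1 : 0 ≤ h1) (hh2 : 0 ≤ h2) (w : ℂ) :
    pc k T y (h1 + h2) w = pc k T y h1 w + pc k T (y + h1) h2 w - pc k T (y + h1) 0 w := by
  classical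
  unfold pc
  rw [cfil_sum, cfil_sum, cfil_sum, cfil_sum, ← Finset.sum_add_distrib, ← Finset.sum_sub_distrib]
  refine Finset.sum_congr rfl fun z _ => ?_
  unfold Wi
  obtain ⟨q, hq⟩ : ∃ q : ℝ, q = (z.re - w.re) * Real.log w.re / (2 * Real.pi) := ⟨_, rfl⟩
  rw [← hq]
  by_cases a1 : y ≤ q <;> by_cases a2 : q ≤ y + (h1 + h2)
  · rcases lt_trichotomy q (y + h1) with a3 | a3 | a3
    · rw [if_pos ⟨a1, a2⟩, if_pos ⟨a1, a3.le⟩, if_neg (by rintro ⟨a5, _⟩; linarith), if_neg (by rintro ⟨a5, _⟩; linarith)]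
      ring
    · rw [if_pos ⟨a1, a2⟩, if_pos ⟨a1, a3.le⟩, if_pos ⟨a3.ge, by linarith⟩, if_pos ⟨a3.ge, by linarith⟩]
      ring
    · rw [if_pos ⟨a1, a2⟩, if_neg (by rintro ⟨_, a5⟩; linarith), if_pos ⟨a3.le, by linarith⟩, if_neg (by rintro ⟨_, a5⟩; linarith)]
      ring
  · push Not at a2
    rw [if_neg (by rintro ⟨_, a5⟩; linarith), if_neg (by rintro ⟨_, a5⟩; linarith), if_neg (by rintro ⟨_, a5⟩; linarith),
      if_neg (by rintro ⟨_, a5⟩; linarith)]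
    ring
  · push Not at a1
    rw [if_neg (by rintro ⟨a5, _⟩; linarith), if_neg (by rintro ⟨a5, _⟩; linarith), if_neg (by rintro ⟨a5, _⟩; linarith),
      if_neg (by rintro ⟨a5, _⟩; linarith)]
    ring
  · push Not at a1
    rw [if_neg (by rintro ⟨a5, _⟩; linarith), if_neg (by rintro ⟨a5, _⟩; linarith), if_neg (by rintro ⟨a5, _⟩; linarith),
      if_neg (by rintro ⟨a5, _⟩; linarith)]
    ring

theorem pw_split (k : ℕ) (T y : ℝ) {h1 h2 : ℝ} (hh1 : 0 ≤ h1) (hh2 : 0 ≤ h2) :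
    Pw k T y (h1 + h2) = Pw k T y h1 + Pw k T (y + h1) h2 - Pw k T (y + h1) 0 := by
  unfold Pw
  rw [← Finset.sum_add_distrib, ← Finset.sum_sub_distrib]
  refine Finset.sum_congr rfl fun w _ => ?_
  rw [pc_split2 k T y hh1 hh2 w]
  ring

/-- from short windows to long ones -/
theorem chain {k : ℕ} {T e N s0 s1 y g : ℝ} (h0 : 0 < s0) (hk : (0:ℝ) < k) (hy : s0 * k ≤ y) (hg0 : 0 ≤ g) (hg1 : g ≤ 1)
    (hsh : ∀ z g' : ℝ, s0 * k ≤ z → 0 ≤ g' → g' ≤ 1 → z + g' ≤ s1 * k → |Pw k T z g' - (∫ x in z..(z + g'), Den (x / k) x) * N| ≤ e * N) :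
    ∀ J : ℕ, y + J * g ≤ s1 * k → |Pw k T y (J * g) - (∫ x in y..(y + J * g), Den (x / k) x) * N| ≤ (2 * J + 1) * (e * N) := by
  intro J
  induction J with
  | zero =>
    intro hJ
    have h1 := hsh y 0 hy le_rfl zero_le_one (by simpa using hJ)
    simpa using h1
  | succ J ih =>
    intro hJ
    push_cast at hJ ⊢
    have hJg : 0 ≤ (J:ℝ) * g := mul_nonneg (Nat.cast_nonneg J) hg0
    have h1 := ih (by linarith)
    have h2 := hsh (y + J * g) g (by linarith) hg0 hg1 (by linarith)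
    have h3 := hsh (y + J * g) 0 (by linarith) le_rfl zero_le_one (by linarith)
    rw [add_zero, intervalIntegral.integral_same] at h3
    rw [show ((J:ℝ) + 1) * g = J * g + g by ring, pw_split k T y hJg hg0, ← add_assoc]
    have e1 : ∫ x in y..(y + J * g + g), Den (x / k) x = (∫ x in y..(y + J * g), Den (x / k) x) + ∫ x in (y + J * g)..(y + J * g + g), Den (x / k) x :=
      (intervalIntegral.integral_add_adjacent_intervals (den_int2 h0 hk (by linarith) hy) (den_int2 h0 hk (by linarith) (by linarith))).symm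
    rw [e1]
    rw [abs_le] at h1 h2 h3 ⊢
    constructor <;> nlinarith [h1.1, h1.2, h2.1, h2.2, h3.1, h3.2]

/-- the number of pairs in windows of any length -/
theorem pairs_long {s0 s1 ε : ℝ} (h0 : 0 < s0) (h01 : s0 ≤ s1) (hε : 0 < ε) :
    ∃ (k0 : ℕ) (C δ T0 : ℝ), 0 < δ ∧ ∀ T : ℝ, T0 ≤ T → ∀ k : ℕ, k0 ≤ k → C * Real.log (Real.log T) ≤ k → (k : ℝ) ≤ δ * Real.log T →
    ∀ y h : ℝ, s0 * k ≤ y → 0 ≤ h → y + h ≤ s1 * k →
    |Pw k T y h - (∫ x in y..(y + h), Den (x / k) x) * (cnt k (fun _ => True) (2 * T) - cnt k (fun _ => True) T)| ≤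
      ε * (1 + h) * (cnt k (fun _ => True) (2 * T) - cnt k (fun _ => True) T) := by
  have hpi := Real.pi_pos
  obtain ⟨k1, C, δ, T1, hδ, H⟩ := t_PAIRSFIN h0 h01 (show 0 < ε / 6 by positivity)
  obtain ⟨K, hK, HK⟩ := den_freeze (s0 := s0) (s1 := s1) h0 (show 0 < ε / 6 by positivity)
  obtain ⟨k2, hk2⟩ := exists_nat_ge K
  refine ⟨max (max k1 k2) 1, C, δ, max T1 3, hδ, fun T hT k hk hkC hkT y h hy hh hyh => ?_⟩
  have hT1 : T1 ≤ T := (le_max_left _ _).trans hT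
  have hT3 : 3 ≤ T := (le_max_right _ _).trans hT
  have hT0 : 0 ≤ T := by linarith
  have hka : k1 ≤ k := ((le_max_left _ _).trans (le_max_left _ _)).trans hk
  have hkb : k2 ≤ k := ((le_max_right _ _).trans (le_max_left _ _)).trans hk
  have hkc : (1:ℝ) ≤ k := by exact_mod_cast (le_max_right _ _).trans hk
  have hk0 : (0:ℝ) < k := by linarith
  have hKk : K ≤ k := hk2.trans (by exact_mod_cast hkb)
  obtain ⟨N, hN⟩ : ∃ N : ℝ, N = cnt k (fun _ => True) (2 * T) - cnt k (fun _ => True) T := ⟨_, rfl⟩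
  have hN0 : 0 ≤ N := by rw [hN]; exact cnt_nn k hT0
  rw [← hN]
  have hsh : ∀ z g' : ℝ, s0 * k ≤ z → 0 ≤ g' → g' ≤ 1 → z + g' ≤ s1 * k → |Pw k T z g' - (∫ x in z..(z + g'), Den (x / k) x) * N| ≤ ε / 3 * N := by
    intro z g' hz hg0 hg1 hzg
    have g1 := H T hT1 k hka hkC hkT z g' hz (by linarith) hg0 hg1
    have hz0 : 0 < z := lt_of_lt_of_le (mul_pos h0 hk0) hz
    rw [← hN, mass (mul_pos hpi (div_pos hz0 hk0)).ne' hg0 hg1] at g1
    have g2 := HK k z g' hKk hz hg0 hg1 hzg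
    have e1 : ∫ x in z..(z + g'), (1 + 2 * ∑' n : ℕ, Real.cos (2 * Real.pi * (n + 1) * x) / (1 + (Real.pi * (z / k)) ^ 2 / 4) ^ ((n + 1) ^ 2)) =
        ∫ x in z..(z + g'), Den (z / k) x := by
      have h2 : (1 + (Real.pi * (z / k)) ^ 2 / 4 : ℝ) = 1 + (Real.pi * (z / k) / 2) ^ 2 := by ring
      rw [h2]
      rfl
    rw [e1] at g1
    have g3 : Pw k T z g' = ∑ w ∈ ZD k (fun _ => True) T, ordk k w * pc k T z g' w := rfl
    rw [← g3] at g1
    have g4 : |((∫ x in z..(z + g'), Den (z / k) x) - ∫ x in z..(z + g'), Den (x / k) x) * N| ≤ ε / 6 * N := by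
      rw [abs_mul, abs_of_nonneg hN0]
      exact mul_le_mul_of_nonneg_right g2 hN0
    rw [abs_le] at g1 g4 ⊢
    constructor <;> nlinarith [g1.1, g1.2, g4.1, g4.2]
  obtain ⟨J, hJ⟩ : ∃ J : ℕ, J = ⌊h⌋₊ + 1 := ⟨_, rfl⟩
  have hJ1 : (J:ℝ) ≤ h + 1 := by
    rw [hJ]
    push_cast
    linarith [Nat.floor_le hh]
  have hJ2 : h ≤ J := by
    rw [hJ]
    push_cast
    exact (Nat.lt_floor_add_one h).le
  have hJ3 : (0:ℝ) < J := by
    rw [hJ]
    positivity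
  have hJg : (J:ℝ) * (h / J) = h := by field_simp
  have hfin := chain (g := h / J) h0 hk0 hy (div_nonneg hh hJ3.le) (by rw [div_le_one hJ3]; exact hJ2) hsh J (by rw [hJg]; exact hyh)
  rw [hJg] at hfin
  refine hfin.trans ?_
  have h5 : (2 * (J:ℝ) + 1) * (ε / 3 * N) ≤ (2 * (h + 1) + 1) * (ε / 3 * N) := mul_le_mul_of_nonneg_right (by linarith) (by positivity)
  have h6 : (2 * (h + 1) + 1) * (ε / 3 * N) ≤ (3 * (h + 1)) * (ε / 3 * N) := mul_le_mul_of_nonneg_right (by linarith) (by positivity)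
  calc _ ≤ _ := h5
    _ ≤ _ := h6
    _ = _ := by ring

end

end Pool.Agent.H487.GP
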