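import Pool.Agent.H487.GA.Fin4

set_option autoImplicit false

/-!
# Project GP (helper487), third part: from the existence of a zero in a window to the number of all pairs, `k ≥ C log log T`
-/

open Finset Complex Filter Topology Metric Set MeasureTheory

namespace Pool.Agent.H487.GP

open Pool.Agent.Helper242.KK (FT Ph)
open Pool.Agent.H477.Jen
open Pool.Agent.H477.E
open Pool.Agent.H487.GA
open Pool.Agent.H487.ED (Ev)

noncomputable section

/-- `z` is between `y` and `y + h` mean spacings above `w` -/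
def Wi (y h : ℝ) (w z : ℂ) : Prop :=
  y ≤ (z.re - w.re) * Real.log w.re / (2 * Real.pi) ∧ (z.re - w.re) * Real.log w.re / (2 * Real.pi) ≤ y + h

/-- the number (with multiplicity) of the zeros `z` of `Ξ^{(k)}` with `Wi y h w z` -/
def pc (k : ℕ) (T y h : ℝ) (w : ℂ) : ℝ := ∑ z ∈ cfil (Wi y h w) (ZA_fin k (4 * T)).toFinset, ordk k z

/-- `w` is real and there is a real zero between `y` and `y + h` mean spacings above `w` -/
def PRR (y h : ℝ) (k : ℕ) (w : ℂ) : Prop := w.im = 0 ∧ ∃ g : ℝ, iteratedDeriv k (FT Ph) g = 0 ∧ Wi y h w g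

/-- **S_LOWN.** A lower bound for the number of zeros. To be proved from `S_GAPL`, `S_LGV`, `S_GDX`, `Pool.Agent.H487.ED.S_SPC`.

Proof. Copy the part `hlow` (and what it needs: `good` with `e = 1/100`, `cover`, `s2`) of `finx_proof` (`Pool/Agent/H487/GA/Fin4.lean`): almost every `t` has a real zero in `[t - s2, t]`, `s2 = (1 + e) π/lamT T ≤ 8/log T`, so `T (1 - 2e) ≤ s2 N`. -/
def S_LOWN : Prop := ∃ (k0 : ℕ) (δ T0 : ℝ), 0 < δ ∧ ∀ T : ℝ, T0 ≤ T → ∀ k : ℕ, k0 ≤ k → (k : ℝ) ≤ δ * Real.log T →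
  T * Real.log T / 10 ≤ ∑ w ∈ ZD k (fun _ => True) T, ordk k w

/-- **S_PAIRS.** The number of all pairs. To be proved from `Pool.Agent.H487.ED.S_DYA`, `Pool.Agent.H477.E.S_UNITU`, `S_LOWN`.

Proof. `e = 1/100` in `Ev e k`; `N = ∑_{ZD k True T} ordk`, `L = log T`. (0) `N ≥ T L/10`; the zeros with `T < re ≤ 4T` number (with multiplicity) at most `N' ≤ 4 T · C L ≤ C' N` (`S_UNITU`: at most `C log t` with `‖w - t‖ ≤ 2`; all zeros have `|im| ≤ 1/2`, see `zeros_R`/`ZA_im`-like lemmas in `H477/E/Strip.lean` or `EF/ToXi.lean`),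
and by `S_DYA` at `T` and `2T` those which are not `Ev e k` number at most `q N'`, `q = C e^{-ck}` (also `≤ q` times the counts of both dyadic blocks); `q L ≤ ε'` as `k ≥ C log log T`. (1) For each `w` with `T < w.re ≤ 2T` the window `Wi y h w` (length `h·2π/log w.re ≤ 1`, inside `(T, 4T]` as `y ≤ s1 k ≤ s1 δ L`)
contains at most `C L` zeros with multiplicity (`S_UNITU`). (2) `∑_{w} ordk w · pc w`: the part of the `w` which are not `Ev` is `≤ C L q N`. For `w` which is `Ev` (`ordk w = 1`), `pc w` = (number of `z ∈ Ev` in the window, each with `ordk = 1`) + (the rest). The rest, summed over `w ∈ Ev`, is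
`∑_{z not Ev} ordk z · #{w ∈ Ev : Wi y h w z} ≤ ∑_{z not Ev} ordk z ≤ q N'`: two different `w < w'` in `Ev` with `Wi y h w z`, `Wi y h w' z` would have `(w' - w) log w/2π ≤ h + (y+h)(1 - log w/log w') ≤ 1/2 + 1/100` (the logarithms differ by `O(1/T)`), but the next zero after `w` is at distance
`≥ (1 - e) 2π/log w` and both are real. (3) A window contains at most one `z ∈ Ev` (`h ≤ 1/2`), so `∑_{w ∈ Ev} #{z ∈ Ev : Wi} = #{w ∈ Ev : ∃ z ∈ Ev, Wi y h w z}`, which is `≤ #{w ∈ Ev : PRR}` and `≥ #{w ∈ Ev : PRR} - #{w ∈ Ev : ∃ z not Ev, Wi y h w z} ≥ #{w ∈ Ev : PRR} - q N'`;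
`∑_{PRR} ordk` and `#{w ∈ Ev : PRR}` differ by at most `q N`. (Real zeros in `Ev` are simple, `ordk_simple`, `cnt_card` in `Pool/Agent/H487/GA/Fin3.lean`; `ordk_one`, `ordk_nonneg`.) -/
def S_PAIRS : Prop := ∀ s1 ε : ℝ, 0 < s1 → 0 < ε → ∃ C δ T0 : ℝ, 0 < δ ∧ ∀ T : ℝ, T0 ≤ T → ∀ k : ℕ, C * Real.log (Real.log T) ≤ k → (k : ℝ) ≤ δ * Real.log T →
  ∀ y h : ℝ, 1 ≤ y → y ≤ s1 * k → 0 ≤ h → h ≤ 1 / 2 →
  |∑ w ∈ ZD k (fun _ => True) T, ordk k w * pc k T y h w - ∑ w ∈ ZD k (PRR y h k) T, ordk k w| ≤ ε * ∑ w ∈ ZD k (fun _ => True) T, ordk k w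

end

end Pool.Agent.H487.GP
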