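import Pool.Agent.H487.GP.FinV

set_option autoImplicit false

/-!
# Project GP (helper487), third part: translation of the number of pairs to the derivatives of `xi`
-/

open Finset Complex Filter Topology Metric Set MeasureTheory

namespace Pool.Agent.H487.GP

open Pool.Agent.Helper242.KK (FT Ph)
open Pool.Agent.H477.Jen
open Pool.Agent.H477.E
open Pool.Agent.H487.GA
open Pool.Agent.H487.EF (neg_I_mul_re neg_I_mul_im line_pt back_pt)

noncomputable section

theorem tsl {S : Set ℂ} {Z : Finset ℂ} (hS : ∀ s, s ∈ S ↔ -I * (s - 1 / 2) ∈ Z) (F G : ℂ → ℝ)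
    (hFG : ∀ s ∈ S, F s = G (-I * (s - 1 / 2))) : ∑ᶠ s ∈ S, F s = ∑ w ∈ Z, G w := by
  set φ : ℂ → ℂ := fun s => -I * (s - 1 / 2) with hφ
  have hinj : Function.Injective φ := by
    intro a b hab
    have : -I * (a - 1 / 2) = -I * (b - 1 / 2) := hab
    have h2 := mul_left_cancel₀ (neg_ne_zero.2 I_ne_zero) this
    linear_combination h2
  have him : φ '' S = ↑Z := by
    ext w
    rw [Finset.mem_coe]
    constructor
    · rintro ⟨s, hs, rfl⟩
      exact (hS s).1 hs
    · intro hw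
      refine ⟨1 / 2 + I * w, (hS _).2 ?_, back_pt w⟩
      rw [back_pt]
      exact hw
  rw [← finsum_mem_coe_finset, ← him, finsum_mem_image (hinj.injOn)]
  exact finsum_mem_congr rfl hFG

theorem pcx (m : ℕ) {T y h : ℝ} (hT : 3 ≤ T) (hy : 0 < y) (hyT : 2 * Real.pi * (y + h) ≤ 2 * T * Real.log T) {z : ℂ} (hz : T < z.im) (hz2 : z.im ≤ 2 * T) :
    ∑ᶠ w ∈ {w : ℂ | iteratedDeriv m xi w = 0 ∧ y ≤ (w.im - z.im) * Real.log z.im / (2 * Real.pi) ∧
      (w.im - z.im) * Real.log z.im / (2 * Real.pi) ≤ y + h}, (analyticOrderNatAt (iteratedDeriv m xi) w : ℝ) = pc m T y h (-I * (z - 1 / 2)) := by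
  unfold pc
  refine tsl (fun s => ?_) _ _ fun s _ => ?_
  · rw [mem_cfil, Set.Finite.mem_toFinset]
    have hpi := Real.pi_pos
    have hlog : 0 < Real.log T := Real.log_pos (by linarith)
    have hlog2 : Real.log T ≤ Real.log z.im := Real.log_le_log (by linarith) hz.le
    have hlog3 : 0 < Real.log z.im := lt_of_lt_of_le hlog hlog2
    unfold Wi
    rw [neg_I_mul_re, neg_I_mul_re]
    constructor
    · rintro ⟨a1, a2, a3⟩
      have b1 : 0 < (s.im - z.im) * Real.log z.im := by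
        rw [le_div_iff₀ (by positivity)] at a2
        have : 0 < y * (2 * Real.pi) := by positivity
        linarith
      have b2 : 0 < s.im - z.im := by
        by_contra hcon
        push Not at hcon
        have := mul_nonpos_of_nonpos_of_nonneg hcon hlog3.le
        linarith
      have b3 : (s.im - z.im) * Real.log T ≤ 2 * T * Real.log T := by
        rw [div_le_iff₀ (by positivity)] at a3
        have := mul_le_mul_of_nonneg_left hlog2 b2.le
        linarith
      have b4 : s.im - z.im ≤ 2 * T := le_of_mul_le_mul_right b3 hlog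
      refine ⟨⟨(xi_iter_zero m s).1 a1, ?_, ?_⟩, a2, a3⟩
      · rw [neg_I_mul_re]; linarith
      · rw [neg_I_mul_re]; linarith
    · rintro ⟨⟨a1, _, _⟩, a2, a3⟩
      exact ⟨(xi_iter_zero m s).2 a1, a2, a3⟩
  · rw [xi_order]
    rfl

/-- the number of all pairs -/
theorem pairs_eq (m : ℕ) {T y h : ℝ} (hT : 3 ≤ T) (hy : 0 < y) (hyT : 2 * Real.pi * (y + h) ≤ 2 * T * Real.log T) :
    ∑ᶠ z ∈ {z : ℂ | iteratedDeriv m xi z = 0 ∧ (T < z.im ∧ z.im ≤ 2 * T) ∧ True}, (analyticOrderNatAt (iteratedDeriv m xi) z : ℝ) *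
      ∑ᶠ w ∈ {w : ℂ | iteratedDeriv m xi w = 0 ∧ y ≤ (w.im - z.im) * Real.log z.im / (2 * Real.pi) ∧
        (w.im - z.im) * Real.log z.im / (2 * Real.pi) ≤ y + h}, (analyticOrderNatAt (iteratedDeriv m xi) w : ℝ) =
      ∑ w ∈ ZD m (fun _ => True) T, ordk m w * pc m T y h w := by
  refine tsl (fun s => ?_) _ _ fun s hs => ?_
  · rw [mem_ZD (by linarith), neg_I_mul_re]
    constructor
    · rintro ⟨a1, ⟨a2, a3⟩, a4⟩
      exact ⟨(xi_iter_zero m s).1 a1, a2, a3, a4⟩
    · rintro ⟨a1, a2, a3, a4⟩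
      exact ⟨(xi_iter_zero m s).2 a1, ⟨a2, a3⟩, a4⟩
  · rw [pcx m hT hy hyT hs.2.1.1 hs.2.1.2, xi_order]
    rfl

/-- the theta function is continuous -/
theorem theta_cont {v : ℝ} (hv : v ≠ 0) :
    Continuous fun x : ℝ => (1 + 2 * ∑' n : ℕ, Real.cos (2 * Real.pi * (n + 1) * x) / (1 + v ^ 2 / 4) ^ ((n + 1) ^ 2)) := by
  have hq : (1:ℝ) < 1 + v ^ 2 / 4 := by
    have : 0 < v ^ 2 := by positivity
    linarith
  have hq0 : (0:ℝ) < 1 + v ^ 2 / 4 := by linarith
  refine continuous_const.add (continuous_const.mul ?_)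
  refine continuous_tsum (u := fun n : ℕ => (1 / (1 + v ^ 2 / 4)) ^ n) (fun n => by fun_prop) ?_ fun n x => ?_
  · exact summable_geometric_of_lt_one (by positivity) (by rw [div_lt_one hq0]; exact hq)
  · rw [norm_div, Real.norm_eq_abs, Real.norm_eq_abs, abs_of_pos (pow_pos hq0 _), one_div, inv_pow, ← one_div]
    have h1 : (1 + v ^ 2 / 4) ^ n ≤ (1 + v ^ 2 / 4) ^ ((n + 1) ^ 2) := pow_le_pow_right₀ hq.le (by nlinarith)
    exact div_le_div₀ zero_le_one (Real.abs_cos_le_one _) (pow_pos hq0 _) h1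

/-- the three masses -/
theorem mass {v y h : ℝ} (hv : v ≠ 0) (hh : 0 ≤ h) (hh1 : h ≤ 1) :
    (nu v).real (SS y (y + h / 2)) + (nu v).real (SS (y + h / 2) (y + h)) - (nu v).real (SS (y + h / 2) (y + h / 2)) =
      ∫ x in y..(y + h), (1 + 2 * ∑' n : ℕ, Real.cos (2 * Real.pi * (n + 1) * x) / (1 + v ^ 2 / 4) ^ ((n + 1) ^ 2)) := by
  rw [t_THETA v hv y (y + h / 2) (by linarith) (by linarith), t_THETA v hv (y + h / 2) (y + h) (by linarith) (by linarith),
    t_THETA v hv (y + h / 2) (y + h / 2) (by linarith) (by linarith), intervalIntegral.integral_same, sub_zero]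
  exact intervalIntegral.integral_add_adjacent_intervals ((theta_cont hv).intervalIntegrable _ _) ((theta_cont hv).intervalIntegrable _ _)

end

end Pool.Agent.H487.GP
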