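import Pool.Agent.H487.GP.ToXi3
import Pool.Agent.H215.GP.Lown
import Pool.Agent.H412.GP.Pairs
import Pool.Agent.H477.E.UnitU2

set_option autoImplicit false

/-! Project GP, the number of all pairs, assembled. -/

namespace Pool.Agent.H487.GP

theorem t_LOWN : S_LOWN := Pool.Agent.H215.GP.lown_proof Pool.Agent.H487.GA.t_GAPL Pool.Agent.H487.GA.t_LGV Pool.Agent.H487.GA.t_GDX Pool.Agent.H487.ED.t_SPC

theorem t_PAIRS : S_PAIRS := Pool.Agent.H412.GP.pairs_proof Pool.Agent.H487.ED.t_DYA Pool.Agent.H477.EU.unitu t_LOWN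

theorem t_PAIRSFIN {s0 s1 ε : ℝ} (h0 : 0 < s0) (h01 : s0 ≤ s1) (hε : 0 < ε) :
    ∃ (k0 : ℕ) (C δ T0 : ℝ), 0 < δ ∧ ∀ T : ℝ, T0 ≤ T → ∀ k : ℕ, k0 ≤ k → C * Real.log (Real.log T) ≤ k → (k : ℝ) ≤ δ * Real.log T →
    ∀ y h : ℝ, s0 * k ≤ y → y ≤ s1 * k → 0 ≤ h → h ≤ 1 →
    |∑ w ∈ Pool.Agent.H487.GA.ZD k (fun _ => True) T, Pool.Agent.H477.E.ordk k w * pc k T y h w -
      ((nu (Real.pi * (y / k))).real (SS y (y + h / 2)) + (nu (Real.pi * (y / k))).real (SS (y + h / 2) (y + h)) -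
        (nu (Real.pi * (y / k))).real (SS (y + h / 2) (y + h / 2))) *
        (Pool.Agent.H477.E.cnt k (fun _ => True) (2 * T) - Pool.Agent.H477.E.cnt k (fun _ => True) T)| ≤
      ε * (Pool.Agent.H477.E.cnt k (fun _ => True) (2 * T) - Pool.Agent.H477.E.cnt k (fun _ => True) T) :=
  pairs_fin t_PAIRS h0 h01 hε

end Pool.Agent.H487.GP
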